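import Mathlib

set_option autoImplicit false

/-! Boundedness of length functions on the full symmetric group of a countable set. -/

namespace Pool.Agent.Run7.h930.QP

open Equiv

/-- the countable set we work on -/
abbrev Om : Type := ℤ × ℤ × ℕ

/-- copy of a permutation of `ℕ` on the fibre over `(0,0)` -/
def io (f : Perm ℕ) : Perm Om where
  toFun p := if p.1 = 0 ∧ p.2.1 = 0 then (p.1, p.2.1, f p.2.2) else p
  invFun p := if p.1 = 0 ∧ p.2.1 = 0 then (p.1, p.2.1, f.symm p.2.2) else p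
  left_inv := by
    rintro ⟨i, j, x⟩
    by_cases h : i = 0 ∧ j = 0
    · obtain ⟨rfl, rfl⟩ := h
      simp
    · simp [h]
  right_inv := by
    rintro ⟨i, j, x⟩
    by_cases h : i = 0 ∧ j = 0
    · obtain ⟨rfl, rfl⟩ := h
      simp
    · simp [h]

/-- the master permutation -/
def hh (f : ℕ → Perm ℕ) : Perm Om where
  toFun p := if 0 ≤ p.1 ∧ 0 ≤ p.2.1 then (p.1, p.2.1, f p.1.toNat p.2.2) else p
  invFun p := if 0 ≤ p.1 ∧ 0 ≤ p.2.1 then (p.1, p.2.1, (f p.1.toNat).symm p.2.2) else p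
  left_inv p := by
    by_cases h : 0 ≤ p.1 ∧ 0 ≤ p.2.1 <;> simp [h]
  right_inv p := by
    by_cases h : 0 ≤ p.1 ∧ 0 ≤ p.2.1 <;> simp [h]

/-- shift in the first direction -/
def ss (n : ℤ) : Perm Om where
  toFun p := (p.1 + n, p.2.1, p.2.2)
  invFun p := (p.1 - n, p.2.1, p.2.2)
  left_inv p := by simp
  right_inv p := by simp

/-- shift in the second direction on the line over `0` -/
def vv : Perm Om where
  toFun p := if p.1 = 0 then (p.1, p.2.1 + 1, p.2.2) else p
  invFun p := if p.1 = 0 then (p.1, p.2.1 - 1, p.2.2) else p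
  left_inv := by
    rintro ⟨i, j, x⟩
    by_cases h : i = 0
    · subst h
      simp
    · simp [h]
  right_inv := by
    rintro ⟨i, j, x⟩
    by_cases h : i = 0
    · subst h
      simp
    · simp [h]

lemma ss_pow (n : ℕ) : (ss 1) ^ n = ss n := by
  induction n with
  | zero =>
    ext p <;> simp [ss]
  | succ n ih =>
    rw [pow_succ, ih]
    ext p <;> simp [ss, Perm.mul_apply]
    ring

lemma word (f : ℕ → Perm ℕ) (n : ℕ) :
    io (f n) = ((ss n)⁻¹ * hh f * ss n) * (vv * ((ss n)⁻¹ * hh f * ss n)⁻¹ * vv⁻¹) := by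
  have key : ∀ p : Om, ((ss n)⁻¹ * hh f * ss n) p =
      if 0 ≤ p.1 + n ∧ 0 ≤ p.2.1 then (p.1, p.2.1, f (p.1 + n).toNat p.2.2) else p := by
    rintro ⟨i, j, x⟩
    simp only [Perm.mul_apply, ss, hh, Equiv.coe_fn_mk, Perm.inv_def, Equiv.coe_fn_symm_mk]
    by_cases h : 0 ≤ i + n ∧ 0 ≤ j <;> simp [h]
  have key2 : ∀ p : Om, ((ss n)⁻¹ * hh f * ss n)⁻¹ p =
      if 0 ≤ p.1 + n ∧ 0 ≤ p.2.1 then (p.1, p.2.1, (f (p.1 + n).toNat).symm p.2.2) else p := by
    intro p
    rw [Perm.inv_eq_iff_eq, key]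
    obtain ⟨i, j, x⟩ := p
    by_cases h : 0 ≤ i + n ∧ 0 ≤ j <;> simp [h]
  ext1 p
  obtain ⟨i, j, x⟩ := p
  rw [Perm.mul_apply, key, Perm.mul_apply, Perm.mul_apply, key2]
  simp only [io, vv, Equiv.coe_fn_mk, Perm.inv_def, Equiv.coe_fn_symm_mk]
  by_cases hi : i = 0
  · subst hi
    rcases lt_trichotomy j 0 with hj | hj | hj
    · have h1 : ¬ (0 ≤ j) := by omega
      have h2 : ¬ (1 ≤ j) := by omega
      have h3 : j ≠ 0 := by omega
      simp [h1, h2, h3]
    · subst hj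
      simp
    · have h1 : (0 ≤ j) := by omega
      have h2 : (1 ≤ j) := by omega
      have h3 : j ≠ 0 := by omega
      simp [h1, h2, h3]
  · simp only [hi, false_and, if_false]
    by_cases h : 0 ≤ i + n ∧ 0 ≤ j <;> simp [h, hi]

section
variable {Γ : Type} [Group Γ]

/-- a length function -/
structure Lf (L : Γ → ℕ) : Prop where
  mul : ∀ g h, L (g * h) ≤ L g + L h
  inv : ∀ g, L g⁻¹ = L g
  one : L 1 = 0

lemma Lf.pow {L : Γ → ℕ} (hL : Lf L) (g : Γ) (n : ℕ) : L (g ^ n) ≤ n * L g := by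
  induction n with
  | zero => simp [hL.one]
  | succ n ih =>
    rw [pow_succ]
    have := hL.mul (g ^ n) g
    nlinarith

end

lemma bdd_io {L : Perm Om → ℕ} (hL : Lf L) : ∃ B, ∀ f, L (io f) ≤ B := by
  by_contra hcon
  push Not at hcon
  choose f hf using fun n : ℕ => hcon ((4 * n + 4) * n)
  set M := max (L (hh f)) (max (L (ss 1)) (L vv)) with hM
  have h1 : L (hh f) ≤ M := le_max_left _ _
  have h2 : L (ss 1) ≤ M := (le_max_left _ _).trans (le_max_right _ _)
  have h3 : L vv ≤ M := (le_max_right _ _).trans (le_max_right _ _)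
  have h4 := hf M
  rw [word f M] at h4
  have e1 : L (ss M) ≤ M * M := by
    rw [← ss_pow]
    exact (hL.pow _ _).trans (Nat.mul_le_mul_left _ h2)
  have e2 : L ((ss M)⁻¹ * hh f * ss M) ≤ M * M + M + M * M := by
    refine (hL.mul _ _).trans (add_le_add ((hL.mul _ _).trans (add_le_add ?_ h1)) e1)
    rw [hL.inv]; exact e1
  have e3 : L (vv * ((ss M)⁻¹ * hh f * ss M)⁻¹ * vv⁻¹) ≤ M + (M * M + M + M * M) + M := by
    refine (hL.mul _ _).trans (add_le_add ((hL.mul _ _).trans (add_le_add h3 ?_)) ?_)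
    · rw [hL.inv]; exact e2
    · rw [hL.inv]; exact h3
  have e4 := hL.mul ((ss M)⁻¹ * hh f * ss M) (vv * ((ss M)⁻¹ * hh f * ss M)⁻¹ * vv⁻¹)
  nlinarith

/-- permutations supported on `A` -/
def Sy (A : Set Om) : Set (Perm Om) := {g | ∀ x, x ∉ A → g x = x}

def Sg : Set Om := {p | p.1 = 0 ∧ p.2.1 = 0}

lemma Sg_io {g : Perm Om} (hg : g ∈ Sy Sg) : ∃ f, g = io f := by
  have hmem : ∀ x, x ∈ Sg → g x ∈ Sg := by
    intro x hx
    by_contra h
    have h1 := hg _ h
    have h2 := g.injective h1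
    rw [h2] at h
    exact h hx
  have hmem' : ∀ x, x ∈ Sg → g.symm x ∈ Sg := by
    intro x hx
    by_contra h
    have h1 := hg _ h
    rw [Equiv.apply_symm_apply] at h1
    rw [← h1] at h
    exact h hx
  refine ⟨⟨fun n => (g (0, 0, n)).2.2, fun n => (g.symm (0, 0, n)).2.2, ?_, ?_⟩, ?_⟩
  · intro n
    have h1 := hmem (0, 0, n) ⟨rfl, rfl⟩
    have h2 : ((0, 0, (g (0, 0, n)).2.2) : Om) = g (0, 0, n) := by
      obtain ⟨a, b⟩ := h1
      ext <;> simp [a, b]
    simp only [h2, Equiv.symm_apply_apply]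
  · intro n
    have h1 := hmem' (0, 0, n) ⟨rfl, rfl⟩
    have h2 : ((0, 0, (g.symm (0, 0, n)).2.2) : Om) = g.symm (0, 0, n) := by
      obtain ⟨a, b⟩ := h1
      ext <;> simp [a, b]
    simp only [h2, Equiv.apply_symm_apply]
  · ext1 p
    by_cases hp : p.1 = 0 ∧ p.2.1 = 0
    · have h1 := hmem p hp
      obtain ⟨i, j, x⟩ := p
      obtain ⟨rfl, rfl⟩ : i = 0 ∧ j = 0 := hp
      obtain ⟨a, b⟩ := h1
      simp only [io, Equiv.coe_fn_mk, and_self, if_true]
      ext <;> simp [a, b]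
    · rw [hg p hp]
      simp only [io, Equiv.coe_fn_mk, hp, if_false]

lemma equiv_of_infinite (A B : Set Om) (hA : A.Infinite) (hB : B.Infinite) :
    Nonempty (A ≃ B) := by
  have := hA.to_subtype
  have := hB.to_subtype
  obtain ⟨a⟩ := nonempty_denumerable A
  obtain ⟨b⟩ := nonempty_denumerable B
  exact ⟨Denumerable.equiv₂ A B⟩

lemma exists_conj {A : Set Om} (hA : A.Infinite) (hA' : Aᶜ.Infinite) :
    ∃ x : Perm Om, ∀ y, x y ∈ A ↔ y ∈ Sg := by
  classical
  have h1 : Sg.Infinite := by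
    apply Set.infinite_of_injective_forall_mem (f := fun n : ℕ => ((0, 0, n) : Om))
    · intro a b h; simpa using h
    · intro n; exact ⟨rfl, rfl⟩
  have h2 : Sgᶜ.Infinite := by
    apply Set.infinite_of_injective_forall_mem (f := fun n : ℕ => ((1, 0, n) : Om))
    · intro a b h; simpa using h
    · intro n h; exact absurd h.1 (by norm_num)
  obtain ⟨e1⟩ := equiv_of_infinite Sg A h1 hA
  obtain ⟨e2⟩ := equiv_of_infinite _ _ h2 hA'
  refine ⟨(Equiv.Set.sumCompl Sg).symm.trans ((Equiv.sumCongr e1 e2).trans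
    (Equiv.Set.sumCompl A)), fun y => ?_⟩
  by_cases hy : y ∈ Sg
  · simp only [Equiv.trans_apply, Equiv.Set.sumCompl_symm_apply_of_mem hy, hy, iff_true]
    simp
  · simp only [Equiv.trans_apply, Equiv.Set.sumCompl_symm_apply_of_notMem hy, hy, iff_false]
    simp only [Equiv.sumCongr_apply, Sum.map_inr, Equiv.Set.sumCompl_apply_inr]
    exact (e2 ⟨y, hy⟩).2

lemma bdd_Sy {L : Perm Om → ℕ} (hL : Lf L) {A : Set Om} (hA : A.Infinite) (hA' : Aᶜ.Infinite) :
    ∃ B, ∀ g ∈ Sy A, L g ≤ B := by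
  obtain ⟨B, hB⟩ := bdd_io hL
  obtain ⟨x, hx⟩ := exists_conj hA hA'
  refine ⟨L x + B + L x, fun g hg => ?_⟩
  have h1 : x⁻¹ * g * x ∈ Sy Sg := by
    intro y hy
    rw [← hx] at hy
    simp only [Perm.mul_apply, hg _ hy]
    simp
  obtain ⟨f, hf⟩ := Sg_io h1
  have h2 : g = x * io f * x⁻¹ := by
    rw [← hf]; group
  rw [h2]
  refine (hL.mul _ _).trans (add_le_add ((hL.mul _ _).trans (add_le_add le_rfl (hB f))) ?_)
  rw [hL.inv]

/-- extension of partial injections inside `A` -/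
lemma ext_perm {A P : Set Om} (hPA : P ⊆ A) (f : Om → Om) (hf : Set.InjOn f P)
    (hfA : ∀ x ∈ P, f x ∈ A) (h1 : (A \ P).Infinite) (h2 : (A \ (f '' P)).Infinite) :
    ∃ a ∈ Sy A, ∀ x ∈ P, a x = f x := by
  classical
  obtain ⟨e⟩ := equiv_of_infinite _ _ h1 h2
  set F : Om → Om := fun x => if x ∈ P then f x else
    if hx : x ∈ A \ P then (e ⟨x, hx⟩ : Om) else x with hF
  have F1 : ∀ x, x ∈ P → F x = f x := fun x hx => by simp [hF, hx]
  have F2 : ∀ x (hx : x ∈ A \ P), F x = e ⟨x, hx⟩ := fun x hx => by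
    simp only [hF]
    rw [if_neg hx.2, dif_pos hx]
  have F3 : ∀ x, x ∉ A → F x = x := fun x hx => by
    have h3 : x ∉ P := fun h => hx (hPA h)
    have h4 : x ∉ A \ P := fun h => hx h.1
    simp only [hF]
    rw [if_neg h3, dif_neg h4]
  have cases3 : ∀ x, x ∈ P ∨ x ∈ A \ P ∨ x ∉ A := by
    intro x
    by_cases h3 : x ∈ P
    · exact Or.inl h3
    · by_cases h4 : x ∈ A
      · exact Or.inr (Or.inl ⟨h4, h3⟩)
      · exact Or.inr (Or.inr h4)
  have m1 : ∀ x, x ∈ P → F x ∈ f '' P := fun x hx => by rw [F1 x hx]; exact ⟨x, hx, rfl⟩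
  have m2 : ∀ x, x ∈ A \ P → F x ∈ A \ (f '' P) := fun x hx => by
    rw [F2 x hx]; exact (e ⟨x, hx⟩).2
  have m1' : ∀ x, x ∈ P → F x ∈ A := fun x hx => by rw [F1 x hx]; exact hfA x hx
  have hinj : Function.Injective F := by
    intro x y hxy
    rcases cases3 x with hx | hx | hx <;> rcases cases3 y with hy | hy | hy
    · rw [F1 x hx, F1 y hy] at hxy; exact hf hx hy hxy
    · exact absurd (hxy ▸ m1 x hx) (m2 y hy).2
    · exact absurd (hxy ▸ m1' x hx) (by rw [F3 y hy]; exact hy)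
    · exact absurd (hxy ▸ m1 y hy) (m2 x hx).2
    · rw [F2 x hx, F2 y hy] at hxy
      have := e.injective (Subtype.ext hxy)
      simpa using this
    · exact absurd (hxy ▸ (m2 x hx).1) (by rw [F3 y hy]; exact hy)
    · exact absurd (hxy ▸ m1' y hy) (by rw [F3 x hx]; exact hx)
    · exact absurd (hxy ▸ (m2 y hy).1) (by rw [F3 x hx]; exact hx)
    · rw [F3 x hx, F3 y hy] at hxy; exact hxy
  have hsurj : Function.Surjective F := by
    intro y
    by_cases hy : y ∈ A
    · by_cases hy' : y ∈ f '' P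
      · obtain ⟨x, hx, rfl⟩ := hy'
        exact ⟨x, F1 x hx⟩
      · refine ⟨e.symm ⟨y, hy, hy'⟩, ?_⟩
        rw [F2 _ (e.symm ⟨y, hy, hy'⟩).2]
        simp
    · exact ⟨y, F3 y hy⟩
  refine ⟨Equiv.ofBijective F ⟨hinj, hsurj⟩, fun x hx => ?_, fun x hx => ?_⟩
  · simp [F3 x hx]
  · simp [F1 x hx]

/-- the three factor decomposition -/
lemma three {A B : Set Om} (hAB : ∀ x, x ∈ A ∨ x ∈ B) (hi : (A ∩ B).Infinite)
    (g : Perm Om) (hg : (A ∩ g ⁻¹' A).Infinite) :
    ∃ a ∈ Sy A, ∃ b ∈ Sy B, ∃ c ∈ Sy A, g = a * b * c := by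
  classical
  set ν := hg.natEmbedding with hν
  have hνinj : Function.Injective fun n => (ν n : Om) := Subtype.val_injective.comp ν.injective
  have hνA : ∀ n, (ν n : Om) ∈ A := fun n => (ν n).2.1
  have hνA' : ∀ n, g (ν n : Om) ∈ A := fun n => (ν n).2.2
  set f : Om → Om := fun x => ν (2 * Encodable.encode x) with hf
  have hfi : Function.Injective f := by
    intro x y hxy
    have := hνinj hxy
    have h2 : Encodable.encode x = Encodable.encode y := by omega
    exact Encodable.encode_injective h2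
  have hAP : (A \ (A \ B)).Infinite := by
    apply hi.mono
    intro x hx
    exact ⟨hx.1, fun h => h.2 hx.2⟩
  obtain ⟨c, hc, hc'⟩ := ext_perm (A := A) (P := A \ B) Set.sdiff_subset f hfi.injOn
    (fun x _ => hνA _) hAP (by
      apply Set.infinite_of_injective_forall_mem (f := fun n : ℕ => (ν (2 * n + 1) : Om))
      · intro a b h
        have := hνinj h
        omega
      · intro n
        refine ⟨hνA _, ?_⟩
        rintro ⟨x, _, hx⟩
        have := hνinj hx
        omega)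
  obtain ⟨a, ha, ha'⟩ := ext_perm (A := A) (P := A \ B) Set.sdiff_subset (fun x => g (f x))
    (g.injective.comp hfi).injOn (fun x _ => hνA' _) hAP (by
      apply Set.infinite_of_injective_forall_mem (f := fun n : ℕ => g (ν (2 * n + 1) : Om))
      · intro a b h
        have := hνinj (g.injective h)
        omega
      · intro n
        refine ⟨hνA' _, ?_⟩
        rintro ⟨x, _, hx⟩
        have := hνinj (g.injective hx)
        omega)
  refine ⟨a, ha, a⁻¹ * g * c, ?_, c⁻¹, ?_, by group⟩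
  · intro x hx
    have hxA : x ∈ A \ B := ⟨(hAB x).resolve_right hx, hx⟩
    simp only [Perm.mul_apply, hc' x hxA]
    rw [Perm.inv_eq_iff_eq]
    exact (ha' x hxA).symm
  · intro x hx
    rw [Perm.inv_eq_iff_eq]
    exact (hc x hx).symm

theorem bergman {L : Perm Om → ℕ} (hL : Lf L) : ∃ B, ∀ g, L g ≤ B := by
  set A : Set Om := {p | p.1 ≤ 1} with hA
  set B : Set Om := {p | 0 ≤ p.1} with hB
  have inf : ∀ (S : Set Om) (k : ℤ), (∀ n : ℕ, ((k, 0, n) : Om) ∈ S) → S.Infinite := by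
    intro S k h
    apply Set.infinite_of_injective_forall_mem (f := fun n : ℕ => ((k, 0, n) : Om)) _ h
    intro a b h; simpa using h
  have hA1 : A.Infinite := inf _ 0 (fun n => by simp [hA])
  have hA2 : Aᶜ.Infinite := inf _ 2 (fun n => by simp [hA])
  have hB1 : B.Infinite := inf _ 0 (fun n => by simp [hB])
  have hB2 : Bᶜ.Infinite := inf _ (-1) (fun n => by simp [hB])
  obtain ⟨b1, hb1⟩ := bdd_Sy hL hA1 hA2
  obtain ⟨b2, hb2⟩ := bdd_Sy hL hB1 hB2
  have hAB : ∀ x, x ∈ A ∨ x ∈ B := by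
    intro x
    simp only [hA, hB, Set.mem_ofPred_eq]
    omega
  have hi : (A ∩ B).Infinite := inf _ 0 (fun n => by simp [hA, hB])
  refine ⟨2 * (b1 + b2), fun g => ?_⟩
  have step : ∀ a b c : Perm Om, L (a * b * c) ≤ L a + L b + L c := fun a b c =>
    (hL.mul _ _).trans (add_le_add_left (hL.mul _ _) _)
  by_cases h : (A ∩ g ⁻¹' A).Infinite
  · obtain ⟨a, ha, b, hb, c, hc, rfl⟩ := three hAB hi g h
    have := step a b c
    have := hb1 a ha
    have := hb1 c hc
    have := hb2 b hb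
    omega
  · have h' : (B ∩ g ⁻¹' B).Infinite := by
      by_contra hcon
      rw [Set.not_infinite] at h hcon
      apply hi
      apply (h.union hcon).subset
      intro x hx
      rcases hAB (g x) with hgx | hgx
      · exact Or.inl ⟨hx.1, hgx⟩
      · exact Or.inr ⟨hx.2, hgx⟩
    obtain ⟨a, ha, b, hb, c, hc, rfl⟩ := three (fun x => (hAB x).symm)
      (by rwa [Set.inter_comm]) g h'
    have := step a b c
    have := hb2 a ha
    have := hb2 c hc
    have := hb1 b hb
    omega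

end Pool.Agent.Run7.h930.QP
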