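import Mathlib
import Pool.Agent.Run7.h930.QP.Berg

set_option autoImplicit false

/-! The group of permutations of the integers that are translations near minus infinity. -/

namespace Pool.Agent.Run7.h930.QP

open Equiv

/-- permutations of `ℤ` that are a translation near `-∞` -/
def GG : Subgroup (Perm ℤ) where
  carrier := {g | ∃ k N : ℤ, ∀ i ≤ N, g i = i + k}
  mul_mem' := by
    rintro g h ⟨k, N, hg⟩ ⟨l, M, hh⟩
    refine ⟨l + k, min M (N - l), fun i hi => ?_⟩
    rw [le_min_iff] at hi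
    rw [Perm.mul_apply, hh i hi.1, hg (i + l) (by omega)]
    ring
  one_mem' := ⟨0, 0, fun i _ => by simp⟩
  inv_mem' := by
    rintro g ⟨k, N, hg⟩
    refine ⟨-k, N + k, fun i hi => ?_⟩
    rw [Perm.inv_eq_iff_eq, hg (i + -k) (by omega)]
    ring

abbrev G : Type := GG

/-- application -/
def ap (g : G) (i : ℤ) : ℤ := (g : Perm ℤ) i

@[simp] lemma ap_mul (g h : G) (i : ℤ) : ap (g * h) i = ap g (ap h i) := rfl
@[simp] lemma ap_one (i : ℤ) : ap 1 i = i := rfl
@[simp] lemma ap_inv_ap (g : G) (i : ℤ) : ap g⁻¹ (ap g i) = i := by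
  rw [← ap_mul]; simp
@[simp] lemma ap_ap_inv (g : G) (i : ℤ) : ap g (ap g⁻¹ i) = i := by
  rw [← ap_mul]; simp

lemma ap_inj (g : G) {i j : ℤ} (h : ap g i = ap g j) : i = j := by
  have := congrArg (ap g⁻¹) h
  simpa using this

lemma ext_ap {g h : G} (H : ∀ i, ap g i = ap h i) : g = h :=
  Subtype.ext (Equiv.ext H)

lemma ap_inv_eq {g : G} {i j : ℤ} (h : ap g j = i) : ap g⁻¹ i = j := by
  rw [← h]; simp

/-- the translation number -/
noncomputable def tr (g : G) : ℤ := g.2.choose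

lemma tr_spec (g : G) : ∃ N : ℤ, ∀ i ≤ N, ap g i = i + tr g := g.2.choose_spec

lemma tr_eq {g : G} {k N : ℤ} (h : ∀ i ≤ N, ap g i = i + k) : tr g = k := by
  obtain ⟨M, hM⟩ := tr_spec g
  have h1 := h (min N M) (min_le_left _ _)
  have h2 := hM (min N M) (min_le_right _ _)
  omega

@[simp] lemma tr_one : tr 1 = 0 := tr_eq (N := 0) (fun i _ => by simp)

@[simp] lemma tr_mul (g h : G) : tr (g * h) = tr g + tr h := by
  obtain ⟨N, hN⟩ := tr_spec g
  obtain ⟨M, hM⟩ := tr_spec h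
  apply tr_eq (N := min M (N - tr h))
  intro i hi
  rw [le_min_iff] at hi
  rw [ap_mul, hM i hi.1, hN _ (by omega)]
  ring

@[simp] lemma tr_inv (g : G) : tr g⁻¹ = - tr g := by
  have := tr_mul g g⁻¹
  simp at this
  omega

@[simp] lemma tr_pow (g : G) (n : ℕ) : tr (g ^ n) = n * tr g := by
  induction n with
  | zero => simp
  | succ n ih => rw [pow_succ, tr_mul, ih]; push_cast; ring

/-- translations -/
def T (n : ℤ) : G := ⟨Equiv.addRight n, n, 0, fun i _ => rfl⟩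

@[simp] lemma ap_T (n i : ℤ) : ap (T n) i = i + n := rfl
@[simp] lemma tr_T (n : ℤ) : tr (T n) = n := tr_eq (N := 0) (fun i _ => rfl)
lemma T_add (m n : ℤ) : T (m + n) = T m * T n := ext_ap (fun i => by simp; ring)
@[simp] lemma T_zero : T 0 = 1 := ext_ap (fun i => by simp)
lemma T_neg (n : ℤ) : T (-n) = (T n)⁻¹ := by
  rw [eq_inv_iff_mul_eq_one, ← T_add]; simp
lemma T_pow (m : ℤ) (n : ℕ) : (T m) ^ n = T (n * m) := by
  induction n with
  | zero => simp
  | succ n ih => rw [pow_succ, ih, ← T_add]; congr 1; push_cast; ring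

/-- pointwise stabiliser of `(-∞, c)` -/
def F (c : ℤ) : Set G := {g | ∀ i < c, ap g i = i}

lemma F_one (c : ℤ) : (1 : G) ∈ F c := fun i _ => by simp

lemma F_mul {c : ℤ} {g h : G} (hg : g ∈ F c) (hh : h ∈ F c) : g * h ∈ F c := by
  intro i hi
  rw [ap_mul, hh i hi, hg i hi]

lemma F_inv {c : ℤ} {g : G} (hg : g ∈ F c) : g⁻¹ ∈ F c := by
  intro i hi
  exact ap_inv_eq (hg i hi)

lemma F_mono {c d : ℤ} (h : c ≤ d) : F d ⊆ F c := fun _ hg i hi => hg i (lt_of_lt_of_le hi h)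

lemma F_pow {c : ℤ} {g : G} (hg : g ∈ F c) (n : ℕ) : g ^ n ∈ F c := by
  induction n with
  | zero => simpa using F_one c
  | succ n ih => rw [pow_succ]; exact F_mul ih hg

lemma tr_of_F {c : ℤ} {g : G} (hg : g ∈ F c) : tr g = 0 :=
  tr_eq (N := c - 1) (fun i hi => by rw [hg i (by omega)]; simp)

lemma F_of_tr {g : G} (h : tr g = 0) : ∃ n : ℕ, g ∈ F (-n) := by
  obtain ⟨N, hN⟩ := tr_spec g
  refine ⟨(-N).toNat, fun i hi => ?_⟩
  rw [hN i (by omega), h]
  simp

/-- conjugation by a translation -/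
def cj (n : ℤ) (h : G) : G := T n * h * T (-n)

@[simp] lemma ap_cj (n : ℤ) (h : G) (i : ℤ) : ap (cj n h) i = ap h (i - n) + n := by
  simp [cj, sub_eq_add_neg]

lemma cj_mul (n : ℤ) (g h : G) : cj n (g * h) = cj n g * cj n h :=
  ext_ap (fun i => by simp)

lemma cj_inv (n : ℤ) (g : G) : cj n g⁻¹ = (cj n g)⁻¹ := by
  simp only [cj, T_neg]; group

lemma cj_cj (m n : ℤ) (g : G) : cj m (cj n g) = cj (m + n) g :=
  ext_ap (fun i => by simp only [ap_cj]; rw [sub_sub]; ring)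

@[simp] lemma cj_zero (g : G) : cj 0 g = g := ext_ap (fun i => by simp)

@[simp] lemma tr_cj (n : ℤ) (g : G) : tr (cj n g) = tr g := by simp [cj]

lemma cj_F {c n : ℤ} {g : G} (hg : g ∈ F c) : cj n g ∈ F (c + n) := by
  intro i hi
  rw [ap_cj, hg _ (by omega)]
  ring

lemma cj_F_iff {c n : ℤ} {g : G} : cj n g ∈ F (c + n) ↔ g ∈ F c := by
  refine ⟨fun h => ?_, cj_F⟩
  have := cj_F (n := -n) h
  rw [cj_cj] at this
  simpa using this

/-- every element is close to a translation on the right of a deep translation -/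
lemma deep (g : G) : ∃ N0 : ℕ, ∀ N : ℤ, (N0 : ℤ) ≤ N → T (N - tr g) * g * T (-N) ∈ F 0 := by
  obtain ⟨M, hM⟩ := tr_spec g
  refine ⟨(-M).toNat, fun N hN i hi => ?_⟩
  simp only [ap_mul, ap_T]
  rw [hM _ (by omega)]
  ring

end Pool.Agent.Run7.h930.QP
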