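import Mathlib
import Pool.Agent.Run7.h930.QP.Grp

set_option autoImplicit false

/-! Word length is a length function; length functions are bounded on `F 0`. -/

namespace Pool.Agent.Run7.h930.QP

open Equiv Pointwise

section
variable {Γ : Type} [Group Γ]

/-- word length -/
noncomputable def wl (S : Set Γ) (g : Γ) : ℕ := sInf {n : ℕ | g ∈ (S ∪ S⁻¹) ^ n}

lemma sym_pow (S : Set Γ) (n : ℕ) : ((S ∪ S⁻¹) ^ n)⁻¹ = (S ∪ S⁻¹) ^ n := by
  rw [← inv_pow]
  congr 1
  rw [Set.union_inv, inv_inv, Set.union_comm]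

lemma wl_exists {S : Set Γ} (hS : Subgroup.closure S = ⊤) (g : Γ) :
    ∃ n, g ∈ (S ∪ S⁻¹) ^ n := by
  have hg : g ∈ Subgroup.closure S := by rw [hS]; trivial
  induction hg using Subgroup.closure_induction with
  | mem x hx => exact ⟨1, by rw [pow_one]; left; exact hx⟩
  | one => exact ⟨0, by simp⟩
  | mul x y _ _ hx hy =>
    obtain ⟨n, hn⟩ := hx
    obtain ⟨m, hm⟩ := hy
    exact ⟨n + m, by rw [pow_add]; exact Set.mul_mem_mul hn hm⟩
  | inv x _ hx =>
    obtain ⟨n, hn⟩ := hx
    refine ⟨n, ?_⟩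
    rw [← sym_pow, Set.inv_mem_inv]
    exact hn

lemma wl_mem {S : Set Γ} (hS : Subgroup.closure S = ⊤) (g : Γ) :
    g ∈ (S ∪ S⁻¹) ^ (wl S g) := Nat.sInf_mem (wl_exists hS g)

lemma wl_le {S : Set Γ} {g : Γ} {n : ℕ} (h : g ∈ (S ∪ S⁻¹) ^ n) : wl S g ≤ n := Nat.sInf_le h

lemma wl_lf {S : Set Γ} (hS : Subgroup.closure S = ⊤) : Lf (wl S) where
  mul g h := wl_le (by rw [pow_add]; exact Set.mul_mem_mul (wl_mem hS g) (wl_mem hS h))
  inv g := by
    have key : ∀ g : Γ, wl S g⁻¹ ≤ wl S g := fun g => wl_le (by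
      rw [← sym_pow, Set.inv_mem_inv]; exact wl_mem hS g)
    apply le_antisymm (key g)
    have := key g⁻¹
    rwa [inv_inv] at this
  one := by
    have : wl S (1 : Γ) ≤ 0 := wl_le (by simp)
    omega

lemma wl_gen {S : Set Γ} {g : Γ} (hg : g ∈ S) : wl S g ≤ 1 :=
  wl_le (by rw [pow_one]; left; exact hg)

/-- comparison of length functions -/
lemma le_wl {S : Set Γ} (hS : Subgroup.closure S = ⊤) {f : Γ → ℤ}
    (hmul : ∀ g h, f (g * h) ≤ f g + f h) (hinv : ∀ g, f g⁻¹ = f g) (hone : f 1 ≤ 0)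
    (hgen : ∀ s ∈ S, f s ≤ 1) (g : Γ) : f g ≤ wl S g := by
  have key : ∀ n : ℕ, ∀ g ∈ (S ∪ S⁻¹) ^ n, f g ≤ n := by
    intro n
    induction n with
    | zero =>
      intro g hg
      rw [pow_zero, Set.mem_one] at hg
      rw [hg]; simpa using hone
    | succ n ih =>
      intro g hg
      rw [pow_succ] at hg
      obtain ⟨a, ha, b, hb, rfl⟩ := hg
      have h1 := ih a ha
      have h2 : f b ≤ 1 := by
        rcases hb with hb | hb
        · exact hgen b hb
        · have := hgen b⁻¹ hb
          rwa [hinv] at this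
      have := hmul a b
      push_cast
      linarith
  exact key _ g (wl_mem hS g)

end

/-- length functions on `G` are bounded on `F 0` -/
theorem bdd_F0 {L : G → ℕ} (hL : Lf L) : ∃ B, ∀ h ∈ F 0, L h ≤ B := by
  obtain ⟨f⟩ : Nonempty (Om ≃ {i : ℤ // 0 ≤ i}) := by
    have : Infinite {i : ℤ // 0 ≤ i} :=
      Infinite.of_injective (fun n : ℕ => (⟨(n : ℤ), by positivity⟩ : {i : ℤ // 0 ≤ i}))
        (fun a b h => by simpa using h)
    exact nonempty_equiv_of_countable
  have mem : ∀ π : Perm Om, π.extendDomain f ∈ GG := by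
    intro π
    refine ⟨0, -1, fun i hi => ?_⟩
    rw [Perm.extendDomain_apply_not_subtype _ _ (by omega)]
    simp
  have hL' : Lf (fun π : Perm Om => L ⟨π.extendDomain f, mem π⟩) := by
    refine ⟨fun g h => ?_, fun g => ?_, ?_⟩
    · have : (⟨(g * h).extendDomain f, mem (g * h)⟩ : G)
          = (⟨g.extendDomain f, mem g⟩ : G) * ⟨h.extendDomain f, mem h⟩ := by
        apply Subtype.ext
        show (g * h).extendDomain f = g.extendDomain f * h.extendDomain f
        rw [Perm.extendDomain_mul]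
      simp only [this]
      exact hL.mul _ _
    · have : (⟨(g⁻¹).extendDomain f, mem g⁻¹⟩ : G) = (⟨g.extendDomain f, mem g⟩ : G)⁻¹ := by
        apply Subtype.ext
        show (g⁻¹).extendDomain f = (g.extendDomain f)⁻¹
        rw [Perm.extendDomain_inv]
      simp only [this]
      exact hL.inv _
    · have : (⟨(1 : Perm Om).extendDomain f, mem 1⟩ : G) = 1 := by
        apply Subtype.ext
        show (1 : Perm Om).extendDomain f = 1
        rw [Perm.extendDomain_one]
      simp only [this]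
      exact hL.one
  obtain ⟨B, hB⟩ := bergman hL'
  refine ⟨B, fun h hh => ?_⟩
  have hpos : ∀ i : ℤ, 0 ≤ i ↔ 0 ≤ ap h i := by
    intro i
    constructor
    · intro hi
      by_contra hc
      push Not at hc
      have := ap_inj h (hh _ hc)
      omega
    · intro hi
      by_contra hc
      push Not at hc
      have := hh _ hc
      omega
  let π : Perm Om := (f.trans ((h : Perm ℤ).subtypePerm (fun i => (hpos i).symm))).trans f.symm
  have : (⟨π.extendDomain f, mem π⟩ : G) = h := by
    apply ext_ap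
    intro i
    show π.extendDomain f i = ap h i
    by_cases hi : 0 ≤ i
    · rw [Perm.extendDomain_apply_subtype _ _ hi]
      simp [π, ap]
    · rw [Perm.extendDomain_apply_not_subtype _ _ hi]
      exact (hh i (by omega)).symm
  rw [← this]
  exact hB π

end Pool.Agent.Run7.h930.QP
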