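import Mathlib
import Pool.Agent.Run7.h930.QP.Len

set_option autoImplicit false

/-! The tree structure on `G`. -/

namespace Pool.Agent.Run7.h930.QP

open Equiv Pointwise

section
variable {Γ : Type} [Group Γ]

noncomputable def gpr (L : Γ → ℕ) (a b : Γ) : ℝ :=
  ((L a : ℝ) + (L b : ℝ) - (L (a⁻¹ * b) : ℝ)) / 2

def Lox (L : Γ → ℕ) (g : Γ) : Prop :=
  ∃ c : ℝ, 0 < c ∧ ∀ n : ℕ, c * (n : ℝ) ≤ (L (g ^ n) : ℝ)

def SE (L : Γ → ℕ) (a b : Γ) : Prop :=
  ∀ K : ℝ, ∃ N : ℕ, ∀ n m : ℕ, N ≤ n → N ≤ m → K ≤ gpr L (a ^ n) (b ^ m)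

end

/-- the generating set -/
def X : Set G := F 0 ∪ {T 1}

lemma X_gen : Subgroup.closure X = ⊤ := by
  rw [eq_top_iff]
  intro g _
  have hT1 : T 1 ∈ Subgroup.closure X := Subgroup.subset_closure (Or.inr rfl)
  have hTn : ∀ n : ℕ, T n ∈ Subgroup.closure X := by
    intro n
    have := Subgroup.pow_mem _ hT1 n
    rw [T_pow] at this
    simpa using this
  have hT : ∀ n : ℤ, T n ∈ Subgroup.closure X := by
    intro n
    rcases Int.eq_nat_or_neg n with ⟨m, rfl | rfl⟩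
    · exact hTn m
    · rw [T_neg]; exact Subgroup.inv_mem _ (hTn m)
  obtain ⟨N, hN⟩ := deep g
  have h := hN N le_rfl
  have h' : T (N - tr g) * g * T (-N) ∈ Subgroup.closure X :=
    Subgroup.subset_closure (Or.inl h)
  have : g = (T (N - tr g))⁻¹ * (T (N - tr g) * g * T (-N)) * (T (-N))⁻¹ := by group
  rw [this]
  exact Subgroup.mul_mem _ (Subgroup.mul_mem _ (Subgroup.inv_mem _ (hT _)) h')
    (Subgroup.inv_mem _ (hT _))

def AA (x y : G) : Set ℤ :=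
  {c | c ≤ tr x ∧ c ≤ tr y ∧ ∀ i < c, ap x (i - tr x) = ap y (i - tr y)}

noncomputable def cc (x y : G) : ℤ := sSup (AA x y)

lemma le_cc {x y : G} {c : ℤ} : c ≤ cc x y ↔
    (c ≤ tr x ∧ c ≤ tr y ∧ ∀ i < c, ap x (i - tr x) = ap y (i - tr y)) := by
  have hne : (AA x y).Nonempty := by
    obtain ⟨N, hN⟩ := tr_spec x
    obtain ⟨M, hM⟩ := tr_spec y
    refine ⟨min (min (tr x) (tr y)) (min (N + tr x) (M + tr y)), ?_, ?_, ?_⟩
    · omega
    · omega
    · intro i hi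
      rw [hN _ (by omega), hM _ (by omega)]
      ring
  have hb : BddAbove (AA x y) := ⟨tr x, fun c hc => hc.1⟩
  have hm := Int.csSup_mem hne hb
  constructor
  · intro h
    obtain ⟨h1, h2, h3⟩ := hm
    exact ⟨le_trans h h1, le_trans h h2, fun i hi => h3 i (lt_of_lt_of_le hi h)⟩
  · intro h
    exact le_csSup hb h

lemma cc_comm (x y : G) : cc x y = cc y x := by
  apply eq_of_forall_le_iff
  intro c
  rw [le_cc, le_cc]
  constructor <;> rintro ⟨h1, h2, h3⟩ <;> exact ⟨h2, h1, fun i hi => (h3 i hi).symm⟩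

lemma cc_left (x y : G) : cc x y ≤ tr x := (le_cc.1 le_rfl).1
lemma cc_right (x y : G) : cc x y ≤ tr y := (le_cc.1 le_rfl).2.1

lemma cc_mul (g x y : G) : cc (g * x) (g * y) = cc x y + tr g := by
  apply eq_of_forall_le_iff
  intro c
  have : c ≤ cc x y + tr g ↔ c - tr g ≤ cc x y := by omega
  rw [this, le_cc, le_cc]
  simp only [tr_mul, ap_mul]
  constructor
  · rintro ⟨h1, h2, h3⟩
    refine ⟨by omega, by omega, fun i hi => ?_⟩
    have := ap_inj g (h3 (i + tr g) (by omega))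
    rw [show i - tr x = i + tr g - (tr g + tr x) by ring,
      show i - tr y = i + tr g - (tr g + tr y) by ring]
    exact this
  · rintro ⟨h1, h2, h3⟩
    refine ⟨by omega, by omega, fun i hi => ?_⟩
    have := h3 (i - tr g) (by omega)
    rw [show i - (tr g + tr x) = i - tr g - tr x by ring,
      show i - (tr g + tr y) = i - tr g - tr y by ring, this]

lemma cc_ultra (x y z : G) : min (cc x y) (cc y z) ≤ cc x z := by
  rw [le_cc]
  have h1 := (le_cc (x := x) (y := y) (c := min (cc x y) (cc y z))).1 (min_le_left _ _)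
  have h2 := (le_cc (x := y) (y := z) (c := min (cc x y) (cc y z))).1 (min_le_right _ _)
  exact ⟨h1.1, h2.2.1, fun i hi => (h1.2.2 i hi).trans (h2.2.2 i hi)⟩

lemma cc_inv_mul (x y : G) : cc 1 (x⁻¹ * y) = cc x y - tr x := by
  have := cc_mul x⁻¹ x y
  rw [inv_mul_cancel, tr_inv] at this
  omega

/-- tree distance to the base point -/
noncomputable def dD (g : G) : ℤ := tr g - 2 * cc 1 g

lemma dD_mul (g h : G) : dD (g * h) ≤ dD g + dD h := by
  have h1 := cc_mul g 1 h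
  rw [mul_one] at h1
  have h2 := cc_ultra 1 g (g * h)
  have h3 := cc_right 1 g
  have h4 := cc_left g (g * h)
  have h5 := cc_left 1 h
  simp only [dD, tr_mul, tr_one] at *
  omega

lemma dD_inv (g : G) : dD g⁻¹ = dD g := by
  have h1 := cc_mul g 1 g⁻¹
  rw [mul_one, mul_inv_cancel, cc_comm g 1] at h1
  simp only [dD, tr_inv]
  omega

lemma dD_one : dD 1 = 0 := by
  have h1 : (0 : ℤ) ≤ cc 1 1 := by rw [le_cc]; simp
  have h2 := cc_left 1 1
  simp only [dD, tr_one] at *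
  omega

lemma dD_F {g : G} (hg : g ∈ F 0) : dD g = 0 := by
  have h1 : (0 : ℤ) ≤ cc 1 g := by
    rw [le_cc, tr_of_F hg]
    refine ⟨by simp, le_rfl, fun i hi => ?_⟩
    simp only [tr_one, sub_zero, ap_one]
    exact (hg i hi).symm
  have h2 := cc_left 1 g
  simp only [dD, tr_one, tr_of_F hg] at *
  omega

lemma cc_one_T (n : ℕ) : cc 1 (T n) = 0 := by
  apply le_antisymm
  · simpa using cc_left 1 (T n)
  · rw [le_cc]; simp

lemma dD_T (n : ℕ) : dD (T n) = n := by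
  simp only [dD, cc_one_T, tr_T]
  ring

lemma dD_le (g : G) : dD g ≤ wl X g := by
  apply le_wl X_gen dD_mul dD_inv (by rw [dD_one])
  rintro s (hs | hs)
  · rw [dD_F hs]; norm_num
  · rw [hs]
    have := dD_T 1
    push_cast at this
    exact this.le

lemma wl_T_le (n : ℤ) : wl X (T n) ≤ n.natAbs := by
  have hL := wl_lf X_gen
  have h1 : wl X (T 1) ≤ 1 := wl_gen (Or.inr rfl)
  have key : ∀ m : ℕ, wl X (T m) ≤ m := by
    intro m
    have := hL.pow (T 1) m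
    rw [T_pow, mul_one] at this
    exact this.trans (by nlinarith)
  rcases Int.eq_nat_or_neg n with ⟨m, rfl | rfl⟩
  · simpa using key m
  · rw [T_neg, hL.inv]
    simpa using key m

lemma wl_F_le {m : ℕ} {g : G} (hg : g ∈ F (-m)) : wl X g ≤ 2 * m + 1 := by
  have hL := wl_lf X_gen
  have h1 : cj m g ∈ F 0 := by simpa using cj_F (n := m) hg
  have h2 : wl X (cj m g) ≤ 1 := wl_gen (Or.inl h1)
  have h3 : g = T (-m) * cj m g * T m := by
    have : cj (-m) (cj m g) = g := by rw [cj_cj]; simp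
    conv_lhs => rw [← this]
    simp [cj]
  have h4 := hL.mul (T (-m) * cj m g) (T m)
  have h5 := hL.mul (T (-m)) (cj m g)
  have h6 := wl_T_le m
  have h7 := wl_T_le (-m)
  rw [← h3] at h4
  simp at h6 h7
  omega

lemma wl_le_dD (g : G) : (wl X g : ℤ) ≤ dD g + 1 := by
  have hL := wl_lf X_gen
  obtain ⟨h1, h2, h3⟩ := (le_cc (x := 1) (y := g)).1 le_rfl
  set c := cc 1 g with hc
  set k := tr g with hk
  simp only [tr_one, sub_zero, ap_one] at h1 h3
  have hF : T (-c) * g * T (c - k) ∈ F 0 := by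
    intro i hi
    simp only [ap_mul, ap_T]
    have := h3 (i + c) (by omega)
    rw [show i + (c - k) = i + c - k by ring, ← this]
    ring
  have h4 : g = T c * (T (-c) * g * T (c - k)) * T (k - c) := by
    rw [show k - c = -(c - k) by ring, T_neg (c - k), T_neg c]
    group
  have h5 := hL.mul (T c * (T (-c) * g * T (c - k))) (T (k - c))
  have h6 := hL.mul (T c) (T (-c) * g * T (c - k))
  have h7 : wl X (T (-c) * g * T (c - k)) ≤ 1 := wl_gen (Or.inl hF)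
  rw [← h4] at h5
  have h8 := wl_T_le c
  have h9 := wl_T_le (k - c)
  simp only [dD, ← hc, ← hk]
  omega

/-- the tree Gromov product -/
lemma gp_lower (a b : G) : ((cc a b - cc 1 a - cc 1 b : ℤ) : ℝ) - 1 / 2 ≤ gpr (wl X) a b := by
  have h1 := dD_le a
  have h2 := dD_le b
  have h3 := wl_le_dD (a⁻¹ * b)
  have h4 := cc_inv_mul a b
  simp only [dD, tr_mul, tr_inv, h4] at h1 h2 h3
  have h1' : ((tr a - 2 * cc 1 a : ℤ) : ℝ) ≤ ((wl X a : ℤ) : ℝ) := by exact_mod_cast h1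
  have h2' : ((tr b - 2 * cc 1 b : ℤ) : ℝ) ≤ ((wl X b : ℤ) : ℝ) := by exact_mod_cast h2
  have h3' : ((wl X (a⁻¹ * b) : ℤ) : ℝ) ≤ ((-tr a + tr b - 2 * (cc a b - tr a) + 1 : ℤ) : ℝ) := by
    exact_mod_cast h3
  simp only [gpr]
  push_cast at h1' h2' h3' ⊢
  linarith

lemma gp_upper (a b : G) : gpr (wl X) a b ≤ ((cc a b - cc 1 a - cc 1 b : ℤ) : ℝ) + 1 := by
  have h1 := wl_le_dD a
  have h2 := wl_le_dD b
  have h3 := dD_le (a⁻¹ * b)
  have h4 := cc_inv_mul a b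
  simp only [dD, tr_mul, tr_inv, h4] at h1 h2 h3
  have h1' : ((wl X a : ℤ) : ℝ) ≤ ((tr a - 2 * cc 1 a + 1 : ℤ) : ℝ) := by exact_mod_cast h1
  have h2' : ((wl X b : ℤ) : ℝ) ≤ ((tr b - 2 * cc 1 b + 1 : ℤ) : ℝ) := by exact_mod_cast h2
  have h3' : ((-tr a + tr b - 2 * (cc a b - tr a) : ℤ) : ℝ) ≤ ((wl X (a⁻¹ * b) : ℤ) : ℝ) := by
    exact_mod_cast h3
  simp only [gpr]
  push_cast at h1' h2' h3' ⊢
  linarith

lemma tree_hyp (x y z : G) :
    min (cc x y - cc 1 x - cc 1 y) (cc y z - cc 1 y - cc 1 z) ≤ cc x z - cc 1 x - cc 1 z := by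
  have h1 := cc_ultra x y z
  have h2 := cc_ultra 1 x y
  have h3 := cc_ultra 1 y x
  have h4 := cc_ultra 1 x z
  have h5 := cc_ultra 1 z x
  have h6 := cc_ultra 1 y z
  have h7 := cc_ultra 1 z y
  have h8 := cc_ultra x 1 y
  have h9 := cc_ultra x 1 z
  have h10 := cc_ultra y 1 z
  have h11 := cc_ultra x z y
  have h12 := cc_ultra y x z
  rw [cc_comm y x, cc_comm z x, cc_comm z y, cc_comm x 1, cc_comm y 1] at *
  omega

lemma X_hyp : ∃ δ : ℝ, ∀ x y z : G,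
    min (gpr (wl X) x y) (gpr (wl X) y z) - δ ≤ gpr (wl X) x z := by
  refine ⟨2, fun x y z => ?_⟩
  have h1 := gp_upper x y
  have h2 := gp_upper y z
  have h3 := gp_lower x z
  have h4 := tree_hyp x y z
  rcases min_le_iff.1 h4 with h | h
  · have h' : ((cc x y - cc 1 x - cc 1 y : ℤ) : ℝ) ≤ ((cc x z - cc 1 x - cc 1 z : ℤ) : ℝ) := by
      exact_mod_cast h
    have := min_le_left (gpr (wl X) x y) (gpr (wl X) y z)
    linarith
  · have h' : ((cc y z - cc 1 y - cc 1 z : ℤ) : ℝ) ≤ ((cc x z - cc 1 x - cc 1 z : ℤ) : ℝ) := by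
      exact_mod_cast h
    have := min_le_right (gpr (wl X) x y) (gpr (wl X) y z)
    linarith

lemma X_lox {g : G} (hg : tr g ≠ 0) : Lox (wl X) g := by
  refine ⟨1, one_pos, fun n => ?_⟩
  have h1 := dD_le (g ^ n)
  have h2 := cc_left 1 (g ^ n)
  have h3 := cc_right 1 (g ^ n)
  simp only [dD, tr_pow, tr_one] at *
  have h4 : (n : ℤ) ≤ |(n : ℤ) * tr g| := by
    rw [abs_mul]
    have : 1 ≤ |tr g| := Int.one_le_abs hg
    have h5 : |(n : ℤ)| = n := abs_of_nonneg (by positivity)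
    rw [h5]
    nlinarith
  have h5 : (n : ℤ) ≤ (wl X (g ^ n) : ℤ) := by
    rcases abs_cases ((n : ℤ) * tr g) with ⟨h, _⟩ | ⟨h, _⟩ <;> rw [h] at h4 <;> omega
  rw [one_mul]
  exact_mod_cast h5

lemma lox_X {g : G} (hg : Lox (wl X) g) : tr g ≠ 0 := by
  intro h
  obtain ⟨c, hc, H⟩ := hg
  obtain ⟨m, hm⟩ := F_of_tr h
  obtain ⟨n, hn⟩ := exists_nat_gt ((2 * m + 1 : ℝ) / c)
  have h1 := H n
  have h2 : wl X (g ^ n) ≤ 2 * m + 1 := wl_F_le (F_pow hm n)
  have h3 : (wl X (g ^ n) : ℝ) ≤ 2 * m + 1 := by exact_mod_cast h2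
  rw [div_lt_iff₀ hc] at hn
  linarith

lemma SE_neg {a b : G} (ha : tr a < 0) (hb : tr b < 0) : SE (wl X) a b := by
  intro K
  obtain ⟨N, hN⟩ := exists_nat_gt (K + 1)
  refine ⟨N, fun n m hn hm => ?_⟩
  have h1 := gp_lower (a ^ n) (b ^ m)
  have h2 := cc_ultra (a ^ n) 1 (b ^ m)
  have h3 := cc_right 1 (a ^ n)
  have h4 := cc_right 1 (b ^ m)
  rw [cc_comm (a ^ n) 1] at h2
  rw [tr_pow] at h3 h4
  have h5 : (n : ℤ) * tr a ≤ -N := by nlinarith
  have h6 : (m : ℤ) * tr b ≤ -N := by nlinarith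
  have h7 : (N : ℤ) ≤ cc (a ^ n) (b ^ m) - cc 1 (a ^ n) - cc 1 (b ^ m) := by omega
  have h8 : ((N : ℤ) : ℝ) ≤ ((cc (a ^ n) (b ^ m) - cc 1 (a ^ n) - cc 1 (b ^ m) : ℤ) : ℝ) := by
    exact_mod_cast h7
  push_cast at h8 h1
  linarith

/-- the transposition of `i` and `j` -/
def sw (i j : ℤ) : G := ⟨Equiv.swap i j, 0, min i j - 1, fun n hn => by
  rw [Equiv.swap_apply_of_ne_of_ne (by omega) (by omega)]; simp⟩

lemma ap_sw (i j n : ℤ) : ap (sw i j) n = if n = i then j else if n = j then i else n :=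
  Equiv.swap_apply_def i j n

lemma sw_F {i j c : ℤ} (hi : c ≤ i) (hj : c ≤ j) : sw i j ∈ F c := by
  intro n hn
  rw [ap_sw, if_neg (by omega), if_neg (by omega)]

lemma tr_sw (i j : ℤ) : tr (sw i j) = 0 := tr_of_F (c := min i j) (sw_F (by omega) (by omega))

lemma sw_inv (i j : ℤ) : (sw i j)⁻¹ = sw i j := by
  apply Subtype.ext
  exact Equiv.swap_inv i j

theorem X_QP : Subgroup.closure X = ⊤ ∧
    (∃ δ : ℝ, ∀ x y z : G, min (gpr (wl X) x y) (gpr (wl X) y z) - δ ≤ gpr (wl X) x z) ∧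
    (∃ g h : G, Lox (wl X) g ∧ Lox (wl X) h ∧
      ¬ ((SE (wl X) g h ∧ SE (wl X) g⁻¹ h⁻¹) ∨ (SE (wl X) g h⁻¹ ∧ SE (wl X) g⁻¹ h))) ∧
    (∀ g h : G, Lox (wl X) g → Lox (wl X) h →
      (SE (wl X) g h ∨ SE (wl X) g h⁻¹ ∨ SE (wl X) g⁻¹ h ∨ SE (wl X) g⁻¹ h⁻¹)) := by
  refine ⟨X_gen, X_hyp, ?_, ?_⟩
  · refine ⟨T 1, sw 0 1 * T 1 * (sw 0 1)⁻¹, X_lox (by simp), X_lox (by simp [tr_sw]), ?_⟩
    have hpow : ∀ m : ℕ, (sw 0 1 * T 1 * (sw 0 1)⁻¹) ^ m = sw 0 1 * T m * sw 0 1 := by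
      intro m
      rw [conj_pow, T_pow, mul_one, sw_inv]
    have hpow' : ∀ m : ℕ, ((sw 0 1 * T 1 * (sw 0 1)⁻¹)⁻¹) ^ m = sw 0 1 * T (-m) * sw 0 1 := by
      intro m
      rw [inv_pow, hpow, T_neg]
      simp [mul_assoc, sw_inv]
    have hT : ∀ n : ℕ, (T 1) ^ n = T n := fun n => by rw [T_pow, mul_one]
    rintro (⟨h, -⟩ | ⟨h, -⟩)
    · obtain ⟨N, hN⟩ := h 2
      have := hN (N + 2) (N + 2) (by omega) (by omega)
      rw [hpow, hT] at this
      have h1 := gp_upper (T ((N + 2 : ℕ) : ℤ)) (sw 0 1 * T ((N + 2 : ℕ) : ℤ) * sw 0 1)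
      have h2 : cc (T ((N + 2 : ℕ) : ℤ)) (sw 0 1 * T ((N + 2 : ℕ) : ℤ) * sw 0 1) ≤ 0 := by
        by_contra hc
        have hc' : (1 : ℤ) ≤ cc (T ((N + 2 : ℕ) : ℤ)) (sw 0 1 * T ((N + 2 : ℕ) : ℤ) * sw 0 1) := by
          omega
        rw [le_cc] at hc'
        have h3 := hc'.2.2 0 (by norm_num)
        simp only [ap_mul, ap_T, tr_T, tr_mul, tr_sw, ap_sw] at h3
        push_cast at h3
        split_ifs at h3 <;> omega
      have h3 : 0 ≤ cc 1 (T ((N + 2 : ℕ) : ℤ)) := by rw [cc_one_T]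
      have h4 : 0 ≤ cc 1 (sw 0 1 * T ((N + 2 : ℕ) : ℤ) * sw 0 1) := by
        rw [le_cc]
        refine ⟨by simp, by simp only [tr_mul, tr_sw, tr_T]; omega, fun i hi => ?_⟩
        simp only [ap_mul, ap_T, tr_T, tr_mul, tr_sw, ap_sw, tr_one, ap_one]
        push_cast
        split_ifs <;> omega
      have h5 : ((cc (T ((N + 2 : ℕ) : ℤ)) (sw 0 1 * T ((N + 2 : ℕ) : ℤ) * sw 0 1)
          - cc 1 (T ((N + 2 : ℕ) : ℤ)) - cc 1 (sw 0 1 * T ((N + 2 : ℕ) : ℤ) * sw 0 1) : ℤ) : ℝ)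
          ≤ ((0 : ℤ) : ℝ) := by
        exact_mod_cast (by omega)
      rw [Int.cast_zero] at h5
      linarith
    · obtain ⟨N, hN⟩ := h 2
      have := hN N N le_rfl le_rfl
      rw [hpow', hT] at this
      have h1 := gp_upper (T (N : ℤ)) (sw 0 1 * T (-(N : ℤ)) * sw 0 1)
      have h2 : cc (T (N : ℤ)) (sw 0 1 * T (-(N : ℤ)) * sw 0 1) ≤ -N := by
        have := cc_right (T (N : ℤ)) (sw 0 1 * T (-(N : ℤ)) * sw 0 1)
        simp only [tr_mul, tr_sw, tr_T] at this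
        omega
      have h3 : 0 ≤ cc 1 (T (N : ℤ)) := by rw [cc_one_T]
      have h4 : -(N : ℤ) ≤ cc 1 (sw 0 1 * T (-(N : ℤ)) * sw 0 1) := by
        rw [le_cc]
        refine ⟨by simp, by simp only [tr_mul, tr_sw, tr_T]; omega, fun i hi => ?_⟩
        simp only [ap_mul, ap_T, tr_T, tr_mul, tr_sw, ap_sw, tr_one, ap_one]
        split_ifs <;> omega
      have h5 : ((cc (T (N : ℤ)) (sw 0 1 * T (-(N : ℤ)) * sw 0 1)
          - cc 1 (T (N : ℤ)) - cc 1 (sw 0 1 * T (-(N : ℤ)) * sw 0 1) : ℤ) : ℝ)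
          ≤ ((0 : ℤ) : ℝ) := by
        exact_mod_cast (by omega)
      rw [Int.cast_zero] at h5
      linarith
  · intro g h hg hh
    have hg' := lox_X hg
    have hh' := lox_X hh
    rcases lt_or_gt_of_ne hg' with h1 | h1 <;> rcases lt_or_gt_of_ne hh' with h2 | h2
    · exact Or.inl (SE_neg h1 h2)
    · exact Or.inr (Or.inl (SE_neg h1 (by simpa using h2)))
    · exact Or.inr (Or.inr (Or.inl (SE_neg (by simpa using h1) h2)))
    · exact Or.inr (Or.inr (Or.inr (SE_neg (by simpa using h1) (by simpa using h2))))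

end Pool.Agent.Run7.h930.QP
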