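import Mathlib
import Pool.Agent.Run7.h930.QP.XQ

set_option autoImplicit false

/-! Hyperbolic length functions on `G`. -/

namespace Pool.Agent.Run7.h930.QP

open Equiv Pointwise

/-- four point condition -/
def Four (L : G → ℕ) (e : ℕ) : Prop :=
  ∀ x y z : G, L (x⁻¹ * z) + L y ≤ max (L (x⁻¹ * y) + L z) (L (y⁻¹ * z) + L x) + e

lemma four_of_hyp {L : G → ℕ} {δ : ℝ}
    (h : ∀ x y z : G, min (gpr L x y) (gpr L y z) - δ ≤ gpr L x z) : ∃ e : ℕ, Four L e := by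
  refine ⟨⌈2 * δ⌉₊, fun x y z => ?_⟩
  have he := Nat.le_ceil (2 * δ)
  have h1 := h x y z
  rw [sub_le_iff_le_add, min_le_iff] at h1
  rw [← Nat.cast_le (α := ℝ)]
  push_cast
  rcases h1 with h1 | h1
  · have h2 := le_max_left ((L (x⁻¹ * y) : ℝ) + L z) ((L (y⁻¹ * z) : ℝ) + L x)
    simp only [gpr] at h1
    linarith
  · have h2 := le_max_right ((L (x⁻¹ * y) : ℝ) + L z) ((L (y⁻¹ * z) : ℝ) + L x)
    simp only [gpr] at h1
    linarith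

lemma bdF {L : G → ℕ} (hL : Lf L) {B : ℕ} (hB : ∀ h ∈ F 0, L h ≤ B) {N : ℕ} {h : G}
    (hh : h ∈ F (-N)) : L h ≤ B + 2 * L (T N) := by
  have h1 : cj N h ∈ F 0 := by simpa using cj_F (n := N) hh
  have h2 := hB _ h1
  have h3 : h = T (-N) * cj N h * T N := by
    have : cj (-N) (cj N h) = h := by rw [cj_cj]; simp
    conv_lhs => rw [← this]
    simp [cj]
  have h4 := hL.mul (T (-N) * cj N h) (T N)
  have h5 := hL.mul (T (-N)) (cj N h)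
  have h6 : L (T (-N)) = L (T N) := by rw [T_neg, hL.inv]
  rw [← h3] at h4
  omega

lemma lox_tr {L : G → ℕ} (hL : Lf L) {B : ℕ} (hB : ∀ h ∈ F 0, L h ≤ B) {g : G}
    (hg : Lox L g) : tr g ≠ 0 := by
  intro h
  obtain ⟨c, hc, H⟩ := hg
  obtain ⟨m, hm⟩ := F_of_tr h
  obtain ⟨n, hn⟩ := exists_nat_gt (((B + 2 * L (T m) : ℕ) : ℝ) / c)
  have h1 := H n
  have h2 : L (g ^ n) ≤ B + 2 * L (T m) := bdF hL hB (F_pow hm n)
  have h3 : (L (g ^ n) : ℝ) ≤ ((B + 2 * L (T m) : ℕ) : ℝ) := by exact_mod_cast h2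
  rw [div_lt_iff₀ hc] at hn
  linarith

lemma pow_deep {u : G} (hu : tr u ≤ 0) : ∃ N0 : ℕ, ∀ (n : ℕ) (i : ℤ), i < -N0 →
    ap (u ^ n) i = i + n * tr u := by
  obtain ⟨M, hM⟩ := tr_spec u
  refine ⟨(-M).toNat, fun n => ?_⟩
  induction n with
  | zero => intro i _; simp
  | succ n ih =>
    intro i hi
    rw [pow_succ, ap_mul, hM i (by omega), ih _ (by omega)]
    push_cast
    ring

lemma lox_inv {L : G → ℕ} (hL : Lf L) {g : G} (hg : Lox L g) : Lox L g⁻¹ := by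
  obtain ⟨c, hc, H⟩ := hg
  refine ⟨c, hc, fun n => ?_⟩
  rw [inv_pow, hL.inv]
  exact H n

lemma exists_lin {L : G → ℕ} (hL : Lf L) {B : ℕ} (hB : ∀ h ∈ F 0, L h ≤ B) {g : G}
    (hg : Lox L g) : ∃ c : ℝ, 0 < c ∧ ∀ x : G, c * |(tr x : ℝ)| ≤ L x := by
  -- reduce to `tr g < 0`
  obtain ⟨g, hg, htr⟩ : ∃ g : G, Lox L g ∧ tr g < 0 := by
    rcases lt_or_gt_of_ne (lox_tr hL hB hg) with h | h
    · exact ⟨g, hg, h⟩
    · exact ⟨g⁻¹, lox_inv hL hg, by simpa using h⟩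
  obtain ⟨c, hc, H⟩ := hg
  obtain ⟨k, hk⟩ : ∃ k : ℕ, tr g = -k := ⟨(-tr g).toNat, by omega⟩
  have hk0 : 0 < k := by omega
  have hkR : (0 : ℝ) < k := by exact_mod_cast hk0
  obtain ⟨N1, hN1⟩ := pow_deep htr.le
  have main : ∀ x : G, tr x ≤ 0 → c / k * |(tr x : ℝ)| ≤ L x := by
    intro x hx
    obtain ⟨j, hj⟩ : ∃ j : ℕ, tr x = -j := ⟨(-tr x).toNat, by omega⟩
    obtain ⟨N2, hN2⟩ := pow_deep hx
    have key : ∀ n : ℕ, c * (j * n : ℕ) ≤ ((k * n * L x + (B + 2 * L (T ((max N1 N2 : ℕ) : ℤ))) : ℕ) : ℝ) := by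
      intro n
      have h1 : (g ^ (j * n))⁻¹ * x ^ (k * n) ∈ F (-((max N1 N2 : ℕ) : ℤ)) := by
        intro i hi
        rw [ap_mul, hN2 _ _ (by omega)]
        apply ap_inv_eq
        rw [hN1 _ _ (by omega), hk, hj]
        push_cast
        ring
      have h2 := bdF hL hB h1
      have h3 := hL.mul (x ^ (k * n)) ((g ^ (j * n))⁻¹ * x ^ (k * n))⁻¹
      have h4 : x ^ (k * n) * ((g ^ (j * n))⁻¹ * x ^ (k * n))⁻¹ = g ^ (j * n) := by group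
      rw [h4, hL.inv] at h3
      have h5 := hL.pow x (k * n)
      have h6 := H (j * n)
      have h7 : L (g ^ (j * n)) ≤ k * n * L x + (B + 2 * L (T ((max N1 N2 : ℕ) : ℤ))) := by omega
      have h8 : (L (g ^ (j * n)) : ℝ)
        ≤ ((k * n * L x + (B + 2 * L (T ((max N1 N2 : ℕ) : ℤ))) : ℕ) : ℝ) := by exact_mod_cast h7
      linarith
    have habs : |(tr x : ℝ)| = j := by
      rw [hj]; push_cast; rw [abs_neg]; exact abs_of_nonneg (by positivity)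
    rw [habs, div_mul_eq_mul_div, div_le_iff₀ hkR]
    by_contra hcon
    push Not at hcon
    obtain ⟨n, hn⟩ := exists_nat_gt
      (((B + 2 * L (T ((max N1 N2 : ℕ) : ℤ)) : ℕ) : ℝ) / (c * j - L x * k))
    rw [div_lt_iff₀ (by linarith)] at hn
    have := key n
    push_cast at this hn
    nlinarith
  refine ⟨c / k, by positivity, fun x => ?_⟩
  rcases le_total (tr x) 0 with h | h
  · exact main x h
  · have := main x⁻¹ (by simpa using h)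
    rw [tr_inv, hL.inv] at this
    push_cast at this
    rwa [abs_neg] at this

structure Ctx (L : G → ℕ) (B e : ℕ) : Prop where
  lf : Lf L
  bd : ∀ h ∈ F 0, L h ≤ B
  four : Four L e
  lin : ∃ c : ℝ, 0 < c ∧ ∀ x : G, c * |(tr x : ℝ)| ≤ L x

section
variable {L : G → ℕ} {B e : ℕ}

lemma Ctx.Tneg (C : Ctx L B e) (n : ℤ) : L (T (-n)) = L (T n) := by rw [T_neg, C.lf.inv]

lemma Ctx.n0 (C : Ctx L B e) : ∃ n0 : ℕ, 1 ≤ n0 ∧
    L (T (n0 : ℤ)) + 2 * e + 1 ≤ L (T ((2 * n0 : ℕ) : ℤ)) := by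
  by_contra hcon
  push Not at hcon
  obtain ⟨c, hc, hlin⟩ := C.lin
  have h1 : ∀ j : ℕ, L (T ((2 ^ j : ℕ) : ℤ)) ≤ L (T 1) + 2 * e * j := by
    intro j
    induction j with
    | zero => simp
    | succ j ih =>
      have := hcon (2 ^ j) Nat.one_le_two_pow
      rw [pow_succ, mul_comm (2 ^ j) 2]
      nlinarith
  obtain ⟨i, hi⟩ := exists_nat_gt (((L (T 1) + 4 * e : ℕ) : ℝ) / c)
  rw [div_lt_iff₀ hc] at hi
  have hi0 : 1 ≤ i := by
    rcases Nat.eq_zero_or_pos i with h | h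
    · rw [h] at hi
      push_cast at hi
      have : (0 : ℝ) ≤ L (T 1) + 4 * e := by positivity
      linarith
    · exact h
  have h2 := h1 (2 * i)
  have h3 := hlin (T ((2 ^ (2 * i) : ℕ) : ℤ))
  rw [tr_T] at h3
  have h4 : |(((2 ^ (2 * i) : ℕ) : ℤ) : ℝ)| = (2 ^ i : ℝ) * 2 ^ i := by
    rw [abs_of_nonneg (by positivity)]
    push_cast
    rw [two_mul, pow_add]
  rw [h4] at h3
  have h5 : (i : ℝ) ≤ 2 ^ i := by exact_mod_cast (Nat.lt_two_pow_self (n := i)).le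
  have h6 : (L (T ((2 ^ (2 * i) : ℕ) : ℤ)) : ℝ) ≤ L (T 1) + 2 * e * (2 * i) := by
    exact_mod_cast h2
  have hi1 : (1 : ℝ) ≤ i := by exact_mod_cast hi0
  have h7 : (i : ℝ) * i ≤ 2 ^ i * 2 ^ i := by nlinarith
  have h8 : c * (i * i) ≤ c * (2 ^ i * 2 ^ i) := mul_le_mul_of_nonneg_left h7 hc.le
  push_cast at hi
  have h9 : (L (T 1) + 4 * e : ℝ) * i < i * c * i := by nlinarith
  have h10 : (L (T 1) : ℝ) ≤ L (T 1) * i := by
    have : (0 : ℝ) ≤ L (T 1) := by positivity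
    nlinarith
  nlinarith

/-- the four point condition along the powers of `T 1` -/
lemma Ctx.fourT (C : Ctx L B e) (p q r : ℤ) :
    L (T (r - p)) + L (T q) ≤ max (L (T (q - p)) + L (T r)) (L (T (r - q)) + L (T p)) + e := by
  have := C.four (T p) (T q) (T r)
  rw [← T_neg, ← T_neg, ← T_add, ← T_add, ← T_add] at this
  rw [show r - p = -p + r by ring, show q - p = -p + q by ring, show r - q = -q + r by ring]
  exact this

lemma Ctx.inc (C : Ctx L B e) {n0 : ℕ}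
    (h : L (T (n0 : ℤ)) + 2 * e + 1 ≤ L (T ((2 * n0 : ℕ) : ℤ))) (j : ℕ) :
    L (T ((j * n0 : ℕ) : ℤ)) + e + 1 ≤ L (T (((j + 1) * n0 : ℕ) : ℤ)) := by
  induction j with
  | zero =>
    have h1 := C.lf.mul (T n0) (T n0)
    rw [← T_add] at h1
    rw [show ((2 * n0 : ℕ) : ℤ) = (n0 : ℤ) + n0 by push_cast; ring] at h
    simp only [zero_mul, zero_add, one_mul, Nat.cast_zero, T_zero, C.lf.one]
    omega
  | succ j ih =>
    have h1 := C.fourT ((j * n0 : ℕ) : ℤ) (((j + 1) * n0 : ℕ) : ℤ) (((j + 1 + 1) * n0 : ℕ) : ℤ)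
    rw [show (((j + 1 + 1) * n0 : ℕ) : ℤ) - ((j * n0 : ℕ) : ℤ) = ((2 * n0 : ℕ) : ℤ) by
        push_cast; ring,
      show (((j + 1) * n0 : ℕ) : ℤ) - ((j * n0 : ℕ) : ℤ) = (n0 : ℤ) by
        push_cast; ring,
      show (((j + 1 + 1) * n0 : ℕ) : ℤ) - (((j + 1) * n0 : ℕ) : ℤ) = (n0 : ℤ) by
        push_cast; ring] at h1
    omega

lemma Ctx.nadd (C : Ctx L B e) {n0 : ℕ}
    (h : L (T (n0 : ℤ)) + 2 * e + 1 ≤ L (T ((2 * n0 : ℕ) : ℤ))) (i j : ℕ) :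
    L (T ((i * n0 : ℕ) : ℤ)) + L (T ((j * n0 : ℕ) : ℤ)) ≤
      L (T (((i + j) * n0 : ℕ) : ℤ)) + (L (T (n0 : ℤ)) + e) := by
  rcases i with _ | i
  · simp only [zero_mul, zero_add, Nat.cast_zero, T_zero, C.lf.one]
    omega
  · have h1 := C.fourT ((i * n0 : ℕ) : ℤ) (((i + 1) * n0 : ℕ) : ℤ) (((i + 1 + j) * n0 : ℕ) : ℤ)
    rw [show (((i + 1 + j) * n0 : ℕ) : ℤ) - ((i * n0 : ℕ) : ℤ) = (((j + 1) * n0 : ℕ) : ℤ) by
        push_cast; ring,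
      show (((i + 1) * n0 : ℕ) : ℤ) - ((i * n0 : ℕ) : ℤ) = (n0 : ℤ) by
        push_cast; ring,
      show (((i + 1 + j) * n0 : ℕ) : ℤ) - (((i + 1) * n0 : ℕ) : ℤ) = ((j * n0 : ℕ) : ℤ) by
        push_cast; ring] at h1
    have h2 := C.inc h j
    have h3 := C.inc h i
    omega

lemma Ctx.conf0 (C : Ctx L B e) {n0 : ℕ} (hn0 : 1 ≤ n0)
    (hn : L (T (n0 : ℤ)) + 2 * e + 1 ≤ L (T ((2 * n0 : ℕ) : ℤ))) {h : G} (hh : tr h = 0) {N : ℕ}
    (hN : L h ≤ L (T ((N * n0 : ℕ) : ℤ))) :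
    L (cj ((N * n0 : ℕ) : ℤ) h) ≤ 2 * (L (T (n0 : ℤ)) + e) + 2 * B + 2 * e := by
  obtain ⟨N0, hN0⟩ := deep h
  obtain ⟨M', hM'⟩ : ∃ M' : ℕ, N0 ≤ M' := ⟨N0, le_rfl⟩
  -- `M = M' + N`
  have hadd := C.nadd hn N M'
  have hM : cj ((((N + M') * n0 : ℕ)) : ℤ) h ∈ F 0 := by
    have := hN0 ((((N + M') * n0 : ℕ)) : ℤ) (by
      have : N0 ≤ (N + M') * n0 := by nlinarith
      exact_mod_cast this)
    rw [hh, sub_zero] at this
    exact this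
  have hMi : cj ((((N + M') * n0 : ℕ)) : ℤ) h⁻¹ ∈ F 0 := by
    rw [cj_inv]; exact F_inv hM
  set m : ℤ := ((((N + M') * n0 : ℕ)) : ℤ) with hm
  set n : ℤ := ((N * n0 : ℕ) : ℤ) with hn'
  set p : ℤ := ((M' * n0 : ℕ) : ℤ) with hp
  have hmnp : m = n + p := by rw [hm, hn', hp]; push_cast; ring
  have B1 := C.bd _ hM
  have B2 := C.bd _ hMi
  have bn := C.Tneg n
  have bm := C.Tneg m
  have bp := C.Tneg p
  -- first four point inequality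
  have f1 := C.four h (h * T (-n)) (T (-m))
  have e1 : h⁻¹ * (h * T (-n)) = T (-n) := by group
  have e2 : (h * T (-n))⁻¹ * T (-m) = T (-p) * cj m h⁻¹ := by
    have e0 : (T (-n))⁻¹ = T n := by rw [T_neg, inv_inv]
    apply ext_ap
    intro i
    rw [mul_inv_rev, e0]
    simp only [cj, ap_mul, ap_T]
    rw [hmnp]
    ring
  have l1 : L (T (-m)) ≤ L (h⁻¹ * T (-m)) + B := by
    have := C.lf.mul (h⁻¹ * T (-m)) (cj m h⁻¹)⁻¹
    rw [C.lf.inv] at this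
    have e3 : h⁻¹ * T (-m) * (cj m h⁻¹)⁻¹ = T (-m) := by
      simp only [cj, T_neg]; group
    rw [e3] at this
    omega
  have l2 : L ((h * T (-n))⁻¹ * T (-m)) ≤ L (T p) + B := by
    rw [e2]
    have := C.lf.mul (T (-p)) (cj m h⁻¹)
    omega
  rw [e1] at f1
  have q1 : L (h * T (-n)) ≤ L (T n) + (L (T (n0 : ℤ)) + e) + 2 * B + e := by
    omega
  -- second four point inequality
  have f2 := C.four (T (-n)) (T (-m)) (h * T (-n))
  have e4 : (T (-n))⁻¹ * (h * T (-n)) = cj n h := by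
    simp only [cj, T_neg]; group
  have e5 : (T (-n))⁻¹ * T (-m) = T (-p) := by
    rw [hmnp, ← T_neg, ← T_add]; congr 1; ring
  have l3 : L ((T (-m))⁻¹ * (h * T (-n))) ≤ B + L (T p) := by
    have e6 : (T (-m))⁻¹ * (h * T (-n)) = cj m h * T p := by
      rw [cj, mul_assoc, ← T_add, ← T_neg, mul_assoc]
      congr 3
      · ring
      · rw [hmnp]; ring
    rw [e6]
    have := C.lf.mul (cj m h) (T p)
    omega
  rw [e4, e5] at f2
  omega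

lemma Ctx.small (C : Ctx L B e) (m : ℕ) : L (T (m : ℤ)) ≤ m * L (T 1) := by
  have := C.lf.pow (T 1) m
  rwa [T_pow, mul_one] at this

theorem Ctx.conf (C : Ctx L B e) : ∃ C0 : ℕ, B ≤ C0 ∧ ∀ K : ℕ, ∃ r : ℕ, ∀ h : G, tr h = 0 →
    L h ≤ K → ∀ n : ℕ, r ≤ n → L (cj n h) ≤ C0 := by
  obtain ⟨n0, hn0, hn⟩ := C.n0
  refine ⟨2 * (L (T (n0 : ℤ)) + e) + 2 * B + 2 * e + 2 * (n0 * L (T 1)), by omega, fun K =>
    ⟨K * n0, fun h hh hK n hrn => ?_⟩⟩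
  have hKN : K ≤ n / n0 := (Nat.le_div_iff_mul_le hn0).2 hrn
  have hlow : ∀ j : ℕ, j ≤ L (T ((j * n0 : ℕ) : ℤ)) := by
    intro j
    induction j with
    | zero => simp
    | succ j ih => have := C.inc hn j; omega
  have h1 := C.conf0 hn0 hn hh (N := n / n0) (by have := hlow (n / n0); omega)
  have hdiv : (n : ℤ) = ((n % n0 : ℕ) : ℤ) + ((n / n0 * n0 : ℕ) : ℤ) := by
    exact_mod_cast (Nat.mod_add_div' n n0).symm
  rw [hdiv, ← cj_cj]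
  set k := cj ((n / n0 * n0 : ℕ) : ℤ) h
  have h2 := C.lf.mul (T ((n % n0 : ℕ) : ℤ) * k) (T (-((n % n0 : ℕ) : ℤ)))
  have h3 := C.lf.mul (T ((n % n0 : ℕ) : ℤ)) k
  have h4 := C.Tneg ((n % n0 : ℕ) : ℤ)
  have h5 := C.small (n % n0)
  have h6 : n % n0 * L (T 1) ≤ n0 * L (T 1) :=
    Nat.mul_le_mul_right _ (Nat.mod_lt _ hn0).le
  show L (T ((n % n0 : ℕ) : ℤ) * k * T (-((n % n0 : ℕ) : ℤ))) ≤ _
  omega

theorem Ctx.nearadd (C : Ctx L B e) : ∃ K : ℕ, ∀ m n : ℕ,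
    L (T (m : ℤ)) + L (T (n : ℤ)) ≤ L (T ((m + n : ℕ) : ℤ)) + K := by
  obtain ⟨n0, hn0, hn⟩ := C.n0
  refine ⟨L (T (n0 : ℤ)) + e + 4 * (n0 * L (T 1)), fun m n => ?_⟩
  have hb : ∀ k : ℕ, L (T ((k % n0 : ℕ) : ℤ)) ≤ n0 * L (T 1) := by
    intro k
    have h5 := C.small (k % n0)
    have h6 : k % n0 * L (T 1) ≤ n0 * L (T 1) :=
      Nat.mul_le_mul_right _ (Nat.mod_lt _ hn0).le
    omega
  have hdiv : ∀ k : ℕ, (k : ℤ) = ((k % n0 : ℕ) : ℤ) + ((k / n0 * n0 : ℕ) : ℤ) := by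
    intro k
    exact_mod_cast (Nat.mod_add_div' k n0).symm
  have h1 := C.lf.mul (T ((m % n0 : ℕ) : ℤ)) (T ((m / n0 * n0 : ℕ) : ℤ))
  have h2 := C.lf.mul (T ((n % n0 : ℕ) : ℤ)) (T ((n / n0 * n0 : ℕ) : ℤ))
  rw [← T_add, ← hdiv] at h1 h2
  have h3 := C.nadd hn (m / n0) (n / n0)
  have h4 := C.lf.mul (T ((m + n : ℕ) : ℤ)) (T (-((m % n0 : ℕ) : ℤ)) * T (-((n % n0 : ℕ) : ℤ)))
  have h5 := C.lf.mul (T (-((m % n0 : ℕ) : ℤ))) (T (-((n % n0 : ℕ) : ℤ)))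
  rw [C.Tneg, C.Tneg] at h5
  have h6 : T ((m + n : ℕ) : ℤ) * (T (-((m % n0 : ℕ) : ℤ)) * T (-((n % n0 : ℕ) : ℤ)))
      = T (((m / n0 + n / n0) * n0 : ℕ) : ℤ) := by
    rw [← T_add, ← T_add]
    congr 1
    have := hdiv m
    have := hdiv n
    push_cast at *
    linarith
  rw [h6] at h4
  have := hb m
  have := hb n
  omega

end

end Pool.Agent.Run7.h930.QP
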