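import Mathlib
import Pool.Agent.Run7.h930.QP.Hyp

set_option autoImplicit false

/-! Confining sets are either contained in some `F (-c)` or everything. -/

namespace Pool.Agent.Run7.h930.QP

open Equiv Pointwise

lemma conj_sw (g : G) (i j : ℤ) : g * sw i j * g⁻¹ = sw (ap g i) (ap g j) :=
  Subtype.ext (Equiv.swap_apply_apply (g : Perm ℤ) i j).symm

lemma cj_sw (n i j : ℤ) : cj n (sw i j) = sw (i + n) (j + n) := by
  rw [cj, T_neg, conj_sw]; rfl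

lemma sw_comm (i j : ℤ) : sw i j = sw j i := Subtype.ext (Equiv.swap_comm i j)

structure Cf (Q : Set G) (r : ℕ) : Prop where
  sF : F 0 ⊆ Q
  str : ∀ h ∈ Q, tr h = 0
  sinv : ∀ h ∈ Q, h⁻¹ ∈ Q
  scj : ∀ h ∈ Q, ∀ n : ℕ, cj n h ∈ Q
  smul : ∀ h ∈ Q, ∀ h' ∈ Q, cj r (h * h') ∈ Q
  sunb : ∀ c : ℕ, ∃ h ∈ Q, h ∉ F (-c)

def Qp (Q : Set G) (r : ℕ) (j : ℕ) : Set G := {h | cj ((r * j : ℕ) : ℤ) h ∈ Q}

section
variable {Q : Set G} {r : ℕ}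

lemma Cf.q0 (_C : Cf Q r) {h : G} (hh : h ∈ Q) : h ∈ Qp Q r 0 := by
  show cj ((r * 0 : ℕ) : ℤ) h ∈ Q
  simpa using hh

lemma Cf.qmono (C : Cf Q r) {j k : ℕ} (hjk : j ≤ k) {h : G} (hh : h ∈ Qp Q r j) :
    h ∈ Qp Q r k := by
  obtain ⟨i, rfl⟩ := Nat.exists_eq_add_of_le hjk
  show cj ((r * (j + i) : ℕ) : ℤ) h ∈ Q
  have h1 : ((r * (j + i) : ℕ) : ℤ) = ((r * i : ℕ) : ℤ) + ((r * j : ℕ) : ℤ) := by
    push_cast; ring
  rw [h1, ← cj_cj]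
  exact C.scj _ hh _

lemma Cf.qmul (C : Cf Q r) {j : ℕ} {h h' : G} (hh : h ∈ Qp Q r j) (hh' : h' ∈ Qp Q r j) :
    h * h' ∈ Qp Q r (j + 1) := by
  show cj ((r * (j + 1) : ℕ) : ℤ) (h * h') ∈ Q
  have h1 : ((r * (j + 1) : ℕ) : ℤ) = (r : ℤ) + ((r * j : ℕ) : ℤ) := by
    push_cast; ring
  rw [h1, ← cj_cj, cj_mul]
  exact C.smul _ hh _ hh'

lemma Cf.qinv (C : Cf Q r) {j : ℕ} {h : G} (hh : h ∈ Qp Q r j) : h⁻¹ ∈ Qp Q r j := by
  show cj ((r * j : ℕ) : ℤ) h⁻¹ ∈ Q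
  rw [cj_inv]
  exact C.sinv _ hh

lemma Cf.qcj (C : Cf Q r) {j : ℕ} {h : G} (hh : h ∈ Qp Q r j) (n : ℕ) : cj n h ∈ Qp Q r j := by
  show cj ((r * j : ℕ) : ℤ) (cj n h) ∈ Q
  rw [cj_cj, add_comm, ← cj_cj]
  exact C.scj _ hh n

lemma Cf.qF (C : Cf Q r) {j : ℕ} {h : G} (hh : h ∈ QP.F 0) : h ∈ Qp Q r j :=
  C.qmono (Nat.zero_le _) (C.q0 (C.sF hh))

/-- three-fold products -/
lemma Cf.qmul3 (C : Cf Q r) {j : ℕ} {a b c : G} (ha : a ∈ Qp Q r j) (hb : b ∈ Qp Q r j)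
    (hc : c ∈ Qp Q r j) : a * b * c ∈ Qp Q r (j + 2) :=
  C.qmul (C.qmul ha hb) (C.qmono (Nat.le_succ j) hc)

/-- lowest moved point -/
lemma low {g : G} (hg : tr g = 0) {c : ℕ} (hc : g ∉ QP.F (-c)) :
    ∃ n : ℕ, c < n ∧ g ∈ QP.F (-n) ∧ -(n : ℤ) < ap g (-n) := by
  classical
  have hex := F_of_tr hg
  set n := Nat.find hex with hn
  have h1 : g ∈ QP.F (-n) := Nat.find_spec hex
  have h2 : c < n := by
    by_contra hcon
    push Not at hcon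
    exact hc (F_mono (by omega) h1)
  have h3 : g ∉ QP.F (-((n - 1 : ℕ) : ℤ)) := Nat.find_min hex (m := n - 1) (by omega)
  have h4 : ap g (-n) ≠ -n := by
    intro h
    apply h3
    intro i hi
    rcases eq_or_ne i (-n) with h5 | h5
    · rw [h5]; exact h
    · exact h1 i (by omega)
  have h5 : ¬ ap g (-n) < -n := by
    intro h
    have := ap_inj g (h1 _ h)
    omega
  exact ⟨n, h2, h1, by omega⟩

lemma Cf.double (C : Cf Q r) {g : G} (hg : g ∈ Q) {n : ℤ} {d : ℕ} (hF : g ∈ QP.F n)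
    (hd : ap g n = n + d) (j : ℕ) :
    ∃ g' ∈ Qp Q r j, g' ∈ QP.F n ∧ ap g' n = n + ((2 ^ j * d : ℕ) : ℤ) := by
  induction j with
  | zero => exact ⟨g, C.q0 hg, hF, by simpa using hd⟩
  | succ j ih =>
    obtain ⟨k, hk, hkF, hkd⟩ := ih
    refine ⟨cj ((2 ^ j * d : ℕ) : ℤ) k * k, C.qmul (C.qcj hk _) hk, F_mul ?_ hkF, ?_⟩
    · exact F_mono (by omega) (cj_F hkF)
    · rw [ap_mul, hkd, ap_cj, add_sub_cancel_right, hkd]
      push_cast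
      ring

lemma Cf.step1 (C : Cf Q r) (a : ℕ) : ∃ g ∈ Q, ∃ a' : ℕ, a ≤ a' ∧ 0 ≤ ap g (-a') := by
  obtain ⟨g, hg, hgF⟩ := C.sunb (r * a + a)
  obtain ⟨n, hn, h1, h2⟩ := low (C.str g hg) hgF
  obtain ⟨d, hd⟩ : ∃ d : ℕ, ap g (-n) = -n + d := ⟨(ap g (-n) + n).toNat, by omega⟩
  obtain ⟨k, hk, hkF, hkd⟩ := C.double hg h1 hd a
  have hk' : QP.cj ((r * a : ℕ) : ℤ) k ∈ Q := hk
  set D := 2 ^ a * d with hD
  have hDa : a ≤ D := by
    have h3 : a < 2 ^ a := Nat.lt_two_pow_self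
    have h4 : 1 ≤ d := by omega
    nlinarith
  obtain ⟨n', hn'⟩ : ∃ n' : ℕ, n = n' + r * a := ⟨n - r * a, by omega⟩
  have hap : ap (QP.cj ((r * a : ℕ) : ℤ) k) (-n') = -n' + D := by
    rw [ap_cj, show -(n' : ℤ) - ((r * a : ℕ) : ℤ) = -n by omega, hkd]
    omega
  rcases le_or_gt n' D with h | h
  · exact ⟨_, hk', n', by omega, by rw [hap]; omega⟩
  · refine ⟨QP.cj ((n' - D : ℕ) : ℤ) (QP.cj ((r * a : ℕ) : ℤ) k), C.scj _ hk' _, D, hDa, ?_⟩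
    rw [ap_cj, show -(D : ℤ) - ((n' - D : ℕ) : ℤ) = -n' by omega, hap]
    omega

lemma exists_w {g : G} (hg : tr g = 0) : ∃ w : ℤ, 0 ≤ w ∧ 0 ≤ ap g w := by
  by_contra hcon
  push Not at hcon
  obtain ⟨m, hm⟩ := F_of_tr hg
  have h1 : (Set.Icc (-m : ℤ) (-1)).Infinite := by
    apply Set.infinite_of_injective_forall_mem (f := fun w : ℕ => ap g w)
    · intro a b hab
      have := ap_inj g hab
      exact_mod_cast this
    · intro w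
      have h2 := hcon w (by positivity)
      refine ⟨?_, by omega⟩
      by_contra h3
      push Not at h3
      have := ap_inj g (hm _ h3)
      omega
  exact h1 (Set.finite_Icc _ _)

lemma Cf.step2 (C : Cf Q r) {x b : ℤ} (hx : 0 ≤ x) (hb : 1 ≤ b) : sw x (-b) ∈ Qp Q r 4 := by
  obtain ⟨g, hg, a', ha', hz⟩ := C.step1 b.toNat
  have htr := C.str g hg
  obtain ⟨w, hw, hy⟩ := exists_w (g := g⁻¹) (by simp [htr])
  have h1 : g⁻¹ * sw (ap g (-a')) w * g = sw (-a') (ap g⁻¹ w) := by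
    have := conj_sw g⁻¹ (ap g (-a')) w
    rwa [inv_inv, ap_inv_ap] at this
  have h2 : sw (-a') (ap g⁻¹ w) ∈ Qp Q r 2 := by
    rw [← h1]
    exact C.qmul3 (C.qinv (C.q0 hg)) (C.qF (sw_F hz hw)) (C.q0 hg)
  have h3 := C.qcj h2 (a' - b.toNat)
  rw [cj_sw] at h3
  rw [show -(a' : ℤ) + ((a' - b.toNat : ℕ) : ℤ) = -b by omega] at h3
  set u := ap g⁻¹ w + ((a' - b.toNat : ℕ) : ℤ) with hu
  have hu0 : 0 ≤ u := by omega
  have h4 : sw u x * sw (-b) u * (sw u x)⁻¹ = sw x (-b) := by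
    rw [conj_sw, ap_sw, ap_sw, if_neg (by omega), if_neg (by omega), if_pos rfl, sw_comm]
  rw [← h4]
  exact C.qmul3 (C.qF (sw_F hu0 hx)) h3 (C.qinv (C.qF (sw_F hu0 hx)))

lemma sw_self (i : ℤ) : sw i i = 1 := Subtype.ext (Equiv.swap_self i)

lemma Cf.step3 (C : Cf Q r) (i j : ℤ) : sw i j ∈ Qp Q r 6 := by
  rcases lt_or_ge i 0 with hi | hi <;> rcases lt_or_ge j 0 with hj | hj
  · rcases eq_or_ne i j with h | h
    · rw [h, sw_self]; exact C.qF (F_one 0)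
    · have h4 : sw 0 i * sw 0 j * (sw 0 i)⁻¹ = sw i j := by
        rw [conj_sw, ap_sw, ap_sw, if_pos rfl, if_neg (by omega), if_neg (by omega)]
      rw [← h4]
      have h5 : sw 0 i ∈ Qp Q r 4 := by
        have := C.step2 (x := 0) (b := -i) le_rfl (by omega)
        rwa [neg_neg] at this
      have h6 : sw 0 j ∈ Qp Q r 4 := by
        have := C.step2 (x := 0) (b := -j) le_rfl (by omega)
        rwa [neg_neg] at this
      exact C.qmul3 h5 h6 (C.qinv h5)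
  · have := C.step2 (x := j) (b := -i) hj (by omega)
    rw [neg_neg, sw_comm] at this
    exact C.qmono (by norm_num) this
  · have := C.step2 (x := i) (b := -j) hi (by omega)
    rw [neg_neg] at this
    exact C.qmono (by norm_num) this
  · exact C.qF (sw_F hi hj)

lemma Cf.step4 (C : Cf Q r) (k : ℕ) : ∀ (n : ℕ) (g : G), g ∈ QP.F (-((n + 2 ^ k : ℕ) : ℤ)) →
    ∃ h ∈ Qp Q r (6 + k), h * g ∈ QP.F (-n) := by
  induction k with
  | zero =>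
    intro n g hg
    refine ⟨sw (ap g (-((n + 2 ^ 0 : ℕ) : ℤ))) (-((n + 2 ^ 0 : ℕ) : ℤ)), C.step3 _ _, ?_⟩
    intro i hi
    rw [ap_mul, ap_sw]
    rcases eq_or_ne i (-((n + 2 ^ 0 : ℕ) : ℤ)) with h | h
    · rw [h, if_pos rfl]
    · have h1 : i < (-((n + 2 ^ 0 : ℕ) : ℤ)) := by
        push_cast at h ⊢; omega
      have h2 := hg i h1
      have h3 : ap g i ≠ ap g (-((n + 2 ^ 0 : ℕ) : ℤ)) := fun h4 => h (ap_inj g h4)
      rw [if_neg h3, if_neg (by rw [h2]; exact h), h2]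
  | succ k ih =>
    intro n g hg
    obtain ⟨h1, hh1, hF1⟩ := ih (n + 2 ^ k) g (by
      rw [show n + 2 ^ k + 2 ^ k = n + 2 ^ (k + 1) by ring]; exact hg)
    obtain ⟨h2, hh2, hF2⟩ := ih n (h1 * g) hF1
    exact ⟨h2 * h1, C.qmul hh2 hh1, by rwa [mul_assoc]⟩

theorem Cf.all (C : Cf Q r) {g : G} (hg : QP.tr g = 0) : g ∈ Q := by
  obtain ⟨b, hb⟩ := F_of_tr hg
  obtain ⟨k, hk⟩ : ∃ k : ℕ, b + r * (7 + k) ≤ 2 ^ k := by
    refine ⟨2 * (b + 9 * r + 1), ?_⟩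
    set i := b + 9 * r + 1 with hi
    have h1 : i < 2 ^ i := Nat.lt_two_pow_self
    rw [two_mul, pow_add]
    have h2 : i * i ≤ 2 ^ i * 2 ^ i := Nat.mul_le_mul h1.le h1.le
    have h3 : b + r * (7 + (i + i)) ≤ i * i := by
      have : 1 ≤ i := by omega
      nlinarith
    omega
  have h1 : cj (-((r * (7 + k) : ℕ) : ℤ)) g ∈ QP.F (-((0 + 2 ^ k : ℕ) : ℤ)) := by
    apply F_mono _ (cj_F hb)
    have : ((b + r * (7 + k) : ℕ) : ℤ) ≤ ((2 ^ k : ℕ) : ℤ) := by exact_mod_cast hk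
    push_cast at this ⊢
    omega
  obtain ⟨h, hh, hF⟩ := C.step4 k 0 _ h1
  have h2 : cj (-((r * (7 + k) : ℕ) : ℤ)) g ∈ Qp Q r (6 + k + 1) := by
    have h3 : cj (-((r * (7 + k) : ℕ) : ℤ)) g = h⁻¹ * (h * cj (-((r * (7 + k) : ℕ) : ℤ)) g) := by
      group
    rw [h3]
    exact C.qmul (C.qinv hh) (C.qF (by simpa using hF))
  have h4 : cj ((r * (6 + k + 1) : ℕ) : ℤ) (cj (-((r * (7 + k) : ℕ) : ℤ)) g) ∈ Q := h2
  rw [cj_cj, show 6 + k + 1 = 7 + k by ring, add_neg_cancel, cj_zero] at h4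
  exact h4

end

end Pool.Agent.Run7.h930.QP
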