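import Mathlib
import Pool.Agent.Run7.h930.QP.LB

set_option autoImplicit false

/-! Every quasi-parabolic generating set is equivalent to `X`. -/

namespace Pool.Agent.Run7.h930.QP

open Equiv Pointwise

lemma near_T {L : G → ℕ} (hL : Lf L) {C0 : ℕ} (hker : ∀ h : G, tr h = 0 → L h ≤ C0) (x : G) :
    L x ≤ L (T (tr x)) + C0 ∧ L (T (tr x)) ≤ L x + C0 := by
  have h1 := hker (x * T (-tr x)) (by simp)
  have h2 := hL.mul (x * T (-tr x)) (T (tr x))
  have h3 : x * T (-tr x) * T (tr x) = x := by rw [T_neg]; group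
  have h4 := hL.mul (x * T (-tr x))⁻¹ x
  have h5 : (x * T (-tr x))⁻¹ * x = T (tr x) := by rw [T_neg]; group
  rw [h3] at h2
  rw [h5, hL.inv] at h4
  omega

lemma L_natAbs {L : G → ℕ} (hL : Lf L) (z : ℤ) : L (T z) = L (T (z.natAbs : ℤ)) := by
  rcases Int.natAbs_eq z with h | h
  · rw [← h]
  · conv_lhs => rw [h]
    rw [T_neg, hL.inv]

lemma SE_ker {L : G → ℕ} {B e : ℕ} (C : Ctx L B e) {C0 : ℕ}
    (hker : ∀ h : G, tr h = 0 → L h ≤ C0) {g h : G}
    (hgh : (0 < tr g ∧ 0 < tr h) ∨ (tr g < 0 ∧ tr h < 0)) : SE L g h := by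
  obtain ⟨K, hK⟩ := C.nearadd
  obtain ⟨c, hc, hlin⟩ := C.lin
  intro K1
  obtain ⟨N, hN⟩ := exists_nat_gt ((K1 + (K + 3 * C0) / 2) / c)
  rw [div_lt_iff₀ hc] at hN
  refine ⟨N, fun n m hn hm => ?_⟩
  have a1 := near_T C.lf hker (g ^ n)
  have a2 := near_T C.lf hker (h ^ m)
  have a3 := near_T C.lf hker ((g ^ n)⁻¹ * h ^ m)
  simp only [tr_mul, tr_inv, tr_pow] at a1 a2 a3
  rw [L_natAbs C.lf] at a1 a2 a3
  set p := ((n : ℤ) * tr g).natAbs with hp
  set q := ((m : ℤ) * tr h).natAbs with hq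
  have hpN : N ≤ p := by
    rw [hp, Int.natAbs_mul, Int.natAbs_natCast]
    have : 1 ≤ (tr g).natAbs := by omega
    nlinarith
  have hqN : N ≤ q := by
    rw [hq, Int.natAbs_mul, Int.natAbs_natCast]
    have : 1 ≤ (tr h).natAbs := by omega
    nlinarith
  have hdiff : (-((n : ℤ) * tr g) + (m : ℤ) * tr h).natAbs = max p q - min p q := by
    have hs : (0 ≤ (n : ℤ) * tr g ∧ 0 ≤ (m : ℤ) * tr h) ∨
        ((n : ℤ) * tr g ≤ 0 ∧ (m : ℤ) * tr h ≤ 0) := by
      rcases hgh with ⟨h1, h2⟩ | ⟨h1, h2⟩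
      · left; constructor <;> positivity
      · right; constructor
        · exact mul_nonpos_of_nonneg_of_nonpos (by positivity) h1.le
        · exact mul_nonpos_of_nonneg_of_nonpos (by positivity) h2.le
    omega
  rw [hdiff] at a3
  have a4 := hK (min p q) (max p q - min p q)
  rw [show min p q + (max p q - min p q) = max p q by omega] at a4
  have a5 := hlin (T ((min p q : ℕ) : ℤ))
  rw [tr_T] at a5
  have a6 : |(((min p q : ℕ) : ℤ) : ℝ)| = ((min p q : ℕ) : ℝ) := by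
    rw [abs_of_nonneg (by positivity)]; push_cast; rfl
  rw [a6] at a5
  have a7 : (N : ℝ) ≤ ((min p q : ℕ) : ℝ) := by exact_mod_cast (by omega : N ≤ min p q)
  have a8 : L (T (p : ℤ)) + L (T (q : ℤ)) = L (T ((min p q : ℕ) : ℤ)) + L (T ((max p q : ℕ) : ℤ)) := by
    rcases le_total p q with h | h
    · rw [min_eq_left h, max_eq_right h]
    · rw [min_eq_right h, max_eq_left h, add_comm]
  have a9 : L ((g ^ n)⁻¹ * h ^ m) + 2 * L (T ((min p q : ℕ) : ℤ)) ≤
      L (g ^ n) + L (h ^ m) + K + 3 * C0 := by omega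
  have a10 : (L ((g ^ n)⁻¹ * h ^ m) : ℝ) + 2 * L (T ((min p q : ℕ) : ℤ)) ≤
      L (g ^ n) + L (h ^ m) + K + 3 * C0 := by exact_mod_cast a9
  have a11 : c * (N : ℝ) ≤ c * ((min p q : ℕ) : ℝ) := mul_le_mul_of_nonneg_left a7 hc.le
  simp only [gpr]
  linarith

theorem main_Y {Y : Set G} (hgen : Subgroup.closure Y = ⊤)
    (hhyp : ∃ δ : ℝ, ∀ x y z : G, min (gpr (wl Y) x y) (gpr (wl Y) y z) - δ ≤ gpr (wl Y) x z)
    (hlox : ∃ g h : G, Lox (wl Y) g ∧ Lox (wl Y) h ∧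
      ¬ ((SE (wl Y) g h ∧ SE (wl Y) g⁻¹ h⁻¹) ∨ (SE (wl Y) g h⁻¹ ∧ SE (wl Y) g⁻¹ h))) :
    (∃ C : ℕ, ∀ y ∈ Y, wl X y ≤ C) ∧ (∃ C : ℕ, ∀ x ∈ X, wl Y x ≤ C) := by
  have hL := wl_lf hgen
  obtain ⟨B, hB⟩ := bdd_F0 hL
  refine ⟨?_, max B (wl Y (T 1)), ?_⟩
  swap
  · rintro x (hx | hx)
    · exact le_max_of_le_left (hB x hx)
    · rw [hx]; exact le_max_right _ _
  obtain ⟨δ, hδ⟩ := hhyp
  obtain ⟨e, he⟩ := four_of_hyp hδ
  obtain ⟨g, h, hg, hh, hne⟩ := hlox
  have C : Ctx (wl Y) B e := ⟨hL, hB, he, exists_lin hL hB hg⟩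
  obtain ⟨C0, hBC, hconf⟩ := C.conf
  obtain ⟨r, hr⟩ := hconf (2 * C0)
  let Q : Set G := {h | tr h = 0 ∧ ∀ n : ℕ, wl Y (cj n h) ≤ C0}
  by_cases hQ : ∃ c : ℕ, Q ⊆ F (-c)
  · obtain ⟨c, hQ⟩ := hQ
    obtain ⟨c1, hc1, hlin⟩ := C.lin
    obtain ⟨K', hK'⟩ := exists_nat_gt (1 / c1)
    obtain ⟨r2, hr2⟩ := hconf (1 + K' * wl Y (T 1))
    refine ⟨2 * (c + r2) + 1 + K', fun y hy => ?_⟩
    have hy1 : wl Y y ≤ 1 := wl_gen hy
    have htr : (tr y).natAbs ≤ K' := by
      have h1 := hlin y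
      have h2 : (wl Y y : ℝ) ≤ 1 := by exact_mod_cast hy1
      have h3 : |(tr y : ℝ)| ≤ 1 / c1 := by
        rw [le_div_iff₀ hc1]; linarith
      have h4 : (((tr y).natAbs : ℕ) : ℝ) < K' := by
        rw [Nat.cast_natAbs]
        push_cast
        linarith
      exact_mod_cast h4.le
    have h1 : tr (y * T (-tr y)) = 0 := by simp
    have h2 := hL.mul y (T (-tr y))
    have h3 : wl Y (T (-tr y)) ≤ K' * wl Y (T 1) := by
      rw [L_natAbs hL, Int.natAbs_neg]
      exact (C.small _).trans (Nat.mul_le_mul_right _ htr)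
    have h4 : cj r2 (y * T (-tr y)) ∈ Q := by
      refine ⟨by simp, fun n => ?_⟩
      rw [cj_cj]
      have := hr2 _ h1 (by omega) (n + r2) (by omega)
      exact_mod_cast this
    have h5 : y * T (-tr y) ∈ F (-((c + r2 : ℕ) : ℤ)) := by
      have h6 := hQ h4
      rw [show (-(c : ℤ)) = (-((c + r2 : ℕ) : ℤ)) + r2 by push_cast; ring] at h6
      exact cj_F_iff.1 h6
    have h6 := wl_F_le h5
    have h7 := (wl_lf X_gen).mul (y * T (-tr y)) (T (tr y))
    have h8 : y * T (-tr y) * T (tr y) = y := by rw [T_neg]; group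
    rw [h8] at h7
    have h9 := wl_T_le (tr y)
    omega
  · exfalso
    push Not at hQ
    have hCf : Cf Q r := by
      refine ⟨?_, fun h hh => hh.1, ?_, ?_, ?_, ?_⟩
      · intro x hx
        refine ⟨tr_of_F hx, fun n => ?_⟩
        have : cj n x ∈ F 0 := F_mono (by positivity) (cj_F hx)
        exact (hB _ this).trans hBC
      · rintro x ⟨hx1, hx2⟩
        refine ⟨by simpa using hx1, fun n => ?_⟩
        rw [cj_inv, hL.inv]
        exact hx2 n
      · rintro x ⟨hx1, hx2⟩ m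
        refine ⟨by simpa using hx1, fun n => ?_⟩
        rw [cj_cj]
        exact_mod_cast hx2 (n + m)
      · rintro x ⟨hx1, hx2⟩ y ⟨hy1, hy2⟩
        have hx3 := hx2 0
        have hy3 := hy2 0
        simp only [Nat.cast_zero, cj_zero] at hx3 hy3
        have h1 := hL.mul x y
        refine ⟨by simp [hx1, hy1], fun n => ?_⟩
        rw [cj_cj]
        have := hr (x * y) (by simp [hx1, hy1]) (by omega) (n + r) (by omega)
        exact_mod_cast this
      · intro c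
        exact Set.not_subset.1 (hQ c)
    have hker : ∀ h : G, tr h = 0 → wl Y h ≤ C0 := by
      intro h hh
      have := (hCf.all hh).2 0
      simpa using this
    have hg0 := lox_tr hL hB hg
    have hh0 := lox_tr hL hB hh
    apply hne
    have hgi : tr g⁻¹ = - tr g := tr_inv g
    have hhi : tr h⁻¹ = - tr h := tr_inv h
    rcases lt_or_gt_of_ne hg0 with h1 | h1 <;> rcases lt_or_gt_of_ne hh0 with h2 | h2
    · left
      exact ⟨SE_ker C hker (by omega), SE_ker C hker (by omega)⟩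
    · right
      exact ⟨SE_ker C hker (by omega), SE_ker C hker (by omega)⟩
    · right
      exact ⟨SE_ker C hker (by omega), SE_ker C hker (by omega)⟩
    · left
      exact ⟨SE_ker C hker (by omega), SE_ker C hker (by omega)⟩

end Pool.Agent.Run7.h930.QP
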